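import Pool.Agent.BC78.BK.R1

/-! Bahturin's question in characteristic 0: signatures (proof of helper89, elementary form). -/

namespace Pool.Agent.BC78.BZ

open Pool.Agent.H25 Pool.Agent.BC78.BK

/-- value of a product of labelled Lie monomials; the head of the list is the rightmost factor
(the lowest hanging tree, next to the marked leaf) -/
def pval {α : Type} {K : Type*} [Field K] : List (BK.LT α) → (List α → K) → K
  | [], φ => φ []
  | R :: Rs, φ => pval Rs (fun p => R.val (fun q => φ (p ++ q)))

/-- the lists of siblings on the way from a leaf to the root, lowest first -/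
def paths : BT → List (List BT)
  | BT.leaf => [[]]
  | BT.node a b => (paths a).map (fun p => p ++ [b]) ++ (paths b).map (fun p => p ++ [a])

section
variable {α : Type} {K : Type*} [Field K]

/-- `φ` kills all products of shapes `gs` -/
def PK (φ : List α → K) (gs : List BT) : Prop :=
  ∀ Rs : List (BK.LT α), Rs.map BK.LT.shape = gs → pval Rs φ = 0

/-- `φ` kills the two sided ideal generated by the Lie monomials of the shapes in `I` -/
def IK (φ : List α → K) (I : Set BT) : Prop :=
  ∀ R : BK.LT α, R.shape ∈ I → ∀ u v : List α, R.val (fun w => φ (u ++ w ++ v)) = 0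

end

section
variable (K : Type*) [Field K]

/-- every functional which kills the ideal and the side of `A'` kills the side of `A` -/
def Hyp (I : Set BT) (hs : List BT) (A A' : BT) : Prop :=
  ∀ φ : List ℕ → K, IK φ I → (∀ p ∈ paths A', PK φ (p ++ hs)) → ∀ p ∈ paths A, PK φ (p ++ hs)

/-- some functional which kills the ideal does not kill `h` -/
def Alive (I : Set BT) (h : BT) : Prop := ∃ φ : List ℕ → K, IK φ I ∧ ¬ PK φ [h]

/-- `V_X` is contained in `V_Y` -/
def Sub (X Y : BT) : Prop := ∀ φ : List ℕ → K, PK φ [Y] → PK φ [X]

/-- big trees at level `(r, B)` -/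
def big (r : ℕ) (B : Option BT) (S : BT) : Prop := r < S.lv ∨ (S.lv = r ∧ ∃ b ∈ B, Sub K S b)

open Classical in
/-- number of minimal big clades -/
noncomputable def cb (r : ℕ) (B : Option BT) : BT → ℕ
  | BT.leaf => if big K r B BT.leaf then 1 else 0
  | BT.node a b => if cb r B a + cb r B b = 0 then (if big K r B (BT.node a b) then 1 else 0)
      else cb r B a + cb r B b

/-- number of minimal big clades in a list -/
noncomputable def need (r : ℕ) (B : Option BT) (gs : List BT) : ℕ := (gs.map (cb K r B)).sum

open Classical in
/-- number of small trees of size `r` with exactly `n` minimal big clades below them in the list -/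
noncomputable def cent (r : ℕ) (B : Option BT) : ℕ → List BT → ℕ
  | _, [] => 0
  | n, g :: gs => (if n = 0 ∧ g.lv = r ∧ cb K r B g = 0 then 1 else 0) +
      (if cb K r B g ≤ n then cent r B (n - cb K r B g) gs else 0)

end

end Pool.Agent.BC78.BZ
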