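import Pool.Agent.BC78.BZ.Z4

/-! PEN-2 for arbitrary sets of products (the proof of helper46). -/

namespace Pool.Agent.BC78.BZ

open Pool.Agent.H25 Pool.Agent.BC78.BK

section
variable {K : Type*} [Field K]
open Z4

open Classical in
/-- PEN-2 for arbitrary sets of products -/
theorem pen2s {I J : Set BT} (hIJ : I ⊆ J) {hs : List BT} (hal : ∀ h ∈ hs, Alive K I h)
    {P P' : Set (List BT)} (h : ∀ φ : List ℕ → K, IK φ I → (∀ p ∈ P', PK φ (p ++ hs)) →
      ∀ p ∈ P, PK φ (p ++ hs)) (φ : List ℕ → K) (hφ : IK φ J)
    (hA' : ∀ p ∈ P', PK φ (p ++ hs.filter (fun x => decide (Alive K J x)))) :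
    ∀ p ∈ P, PK φ (p ++ hs.filter (fun x => decide (Alive K J x))) := by
  intro p hp
  by_cases hpd : ∀ x ∈ p, Alive K J x
  · rw [pk_iff]
    by_contra hcon
    push Not at hcon
    obtain ⟨As, hAs, hv⟩ := hcon
    set D := (hs.filter (fun h => decide (¬ Alive K J h))) with hD
    obtain ⟨F, F1, F2, Ss, hSs, hw⟩ := alive_prod (I := I) D.reverse
      (fun x hx => hal x (List.mem_of_mem_filter (List.mem_reverse.1 hx)))
    have hsumD : (D.reverse.map BT.lv).sum = (D.map BT.lv).sum := by
      rw [List.map_reverse, List.sum_reverse]
    rw [hsumD] at F2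
    have key := h (mix φ F) (ik_mix (ik_mono hIJ hφ) F1) ?_ p hp
    · rw [pk_iff] at key
      obtain ⟨Ts, hT, hval⟩ := mix_build (J := J) φ F (p ++ hs).reverse As Ss
        (by
          rw [hAs, List.filter_reverse, List.filter_append]
          congr 2
          rw [eq_comm, List.filter_eq_self]
          intro x hx
          simpa using hpd x hx)
        (by
          rw [hSs, List.filter_reverse, List.filter_append, ← hD]
          have : p.filter (fun h => decide (¬ Alive K J h)) = [] := by
            rw [List.filter_eq_nil_iff]
            intro x hx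
            simpa using hpd x hx
          rw [this, List.nil_append])
      have := key Ts hT
      rw [hval] at this
      exact mul_ne_zero hv hw this
    · intro p' hp'
      rw [pk_iff]
      intro Ls hLs
      by_contra hne
      have hsum : (((p' ++ hs).reverse.filter (fun h => decide (¬ Alive K J h))).map BT.lv).sum =
          ((p'.filter (fun h => decide (¬ Alive K J h))).map BT.lv).sum + (D.map BT.lv).sum := by
        rw [List.filter_reverse, List.map_reverse, List.sum_reverse, List.filter_append,
          List.map_append, List.sum_append]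
      obtain ⟨h1, ⟨Bs, hB, hBv⟩, _⟩ := mix_core hφ F2 hLs hne (by rw [hsum]; omega)
      have hp0 : p'.filter (fun h => decide (¬ Alive K J h)) = [] := by
        rw [hsum] at h1
        match hq : p'.filter (fun h => decide (¬ Alive K J h)), h1 with
        | [], _ => rfl
        | x :: xs, h1 =>
          rw [List.map_cons, List.sum_cons] at h1
          have := x.lv_pos
          omega
      have hp1 : ∀ x ∈ p', Alive K J x := by
        intro x hx
        by_contra hxd
        have : x ∈ p'.filter (fun h => decide (¬ Alive K J h)) :=
          List.mem_filter.2 ⟨hx, by simpa using hxd⟩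
        rw [hp0] at this
        simp at this
      have := hA' p' hp'
      rw [pk_iff] at this
      apply hBv
      apply this
      rw [hB, List.filter_reverse, List.filter_append]
      congr 2
      rw [List.filter_eq_self]
      intro x hx
      simpa using hp1 x hx
  · push Not at hpd
    obtain ⟨x, hx, hxd⟩ := hpd
    rw [pk_iff]
    intro Rs hR
    have hx' : x ∈ Rs.map BK.LT.shape := by
      rw [hR, List.mem_reverse]
      exact List.mem_append_left _ hx
    obtain ⟨L, hL, rfl⟩ := List.mem_map.1 hx'
    exact dead_zero hφ hL hxd


end

end Pool.Agent.BC78.BZ
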