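import Mathlib

/-! Pure logic of the equal halves step. `al X f`: the functional `f` does not kill `V_X`;
`Kk X χ`: the functional `χ` kills `U_X`. -/

namespace Pool.Agent.BC78.TieLogic65

variable {T F C Λ : Type*} {al : T → F → Prop} {Kk : T → C → Prop}

/-- common child `X`, others `D`, `D'` -/
theorem lin {D D' X : T}
    (hS : ∀ f χ, ((al X f → Kk D χ) ∧ (al D f → Kk X χ)) ↔ ((al X f → Kk D' χ) ∧ (al D' f → Kk X χ)))
    (m1 : (∀ f, al X f → al D f) → ∀ χ, Kk D χ → Kk X χ)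
    (m2 : (∀ f, al X f → al D' f) → ∀ χ, Kk D' χ → Kk X χ)
    (ne : ∃ χ, ¬ Kk X χ) :
    (∀ χ, Kk D χ ↔ Kk D' χ) ∨ (∀ f, al D f ↔ al D' f) := by
  by_cases P1 : ∀ f, al X f → al D f
  · by_cases P2 : ∀ f, al X f → al D' f
    · right
      intro f
      by_cases hf : al X f
      · exact ⟨fun _ => P2 f hf, fun _ => P1 f hf⟩
      · obtain ⟨χ, hχ⟩ := ne
        have h : ¬ al D f ↔ ¬ al D' f := by simpa [hf, hχ] using hS f χ
        exact not_iff_not.mp h
    · left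
      push Not at P2
      obtain ⟨f, hf1, hf2⟩ := P2
      intro χ
      have h1 := P1 f hf1
      have h2 := m1 P1 χ
      have h : (Kk D χ ∧ Kk X χ) ↔ Kk D' χ := by simpa [hf1, hf2, h1] using hS f χ
      exact ⟨fun a => h.mp ⟨a, h2 a⟩, fun a => (h.mpr a).1⟩
  · by_cases P2 : ∀ f, al X f → al D' f
    · left
      push Not at P1
      obtain ⟨f, hf1, hf2⟩ := P1
      intro χ
      have h1 := P2 f hf1
      have h2 := m2 P2 χ
      have h : Kk D χ ↔ (Kk D' χ ∧ Kk X χ) := by simpa [hf1, hf2, h1] using hS f χ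
      exact ⟨fun a => (h.mp a).1, fun a => h.mpr ⟨a, h2 a⟩⟩
    · left
      push Not at P1 P2
      obtain ⟨f, hf1, hf2⟩ := P1
      obtain ⟨g, hg1, hg2⟩ := P2
      intro χ
      have h : Kk D χ ↔ (Kk D' χ ∧ (al D' f → Kk X χ)) := by simpa [hf1, hf2] using hS f χ
      have h' : (Kk D χ ∧ (al D g → Kk X χ)) ↔ Kk D' χ := by simpa [hg1, hg2] using hS g χ
      exact ⟨fun a => (h.mp a).1, fun a => (h'.mpr a).1⟩

/-- a common child, when equality of `Kk` implies equality of `al` -/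
theorem common {A B A' B' : T} {M : T → Prop} (hA : M A) (hB : M B) (hA' : M A') (hB' : M B')
    (hS : ∀ f χ, ((al B f → Kk A χ) ∧ (al A f → Kk B χ)) ↔ ((al B' f → Kk A' χ) ∧ (al A' f → Kk B' χ)))
    (mono : ∀ X Y, M X → M Y → (∀ f, al X f → al Y f) → ∀ χ, Kk Y χ → Kk X χ)
    (gen : ∃ f, al A f ∧ al B f ∧ al A' f ∧ al B' f)
    (ne : ∀ X, M X → ∃ χ, ¬ Kk X χ)
    (hE : ∀ X Y, M X → M Y → (∀ χ, Kk X χ ↔ Kk Y χ) → ∀ f, al X f ↔ al Y f) :
    (∀ f, al A f ↔ al A' f) ∨ (∀ f, al A f ↔ al B' f) ∨ (∀ f, al B f ↔ al A' f) ∨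
      (∀ f, al B f ↔ al B' f) := by
  by_contra hcon
  rw [not_or, not_or, not_or] at hcon
  obtain ⟨n1, n2, n3, n4⟩ := hcon
  have N1 : ¬ ∀ χ, Kk A χ ↔ Kk A' χ := fun h => n1 (hE A A' hA hA' h)
  have N2 : ¬ ∀ χ, Kk A χ ↔ Kk B' χ := fun h => n2 (hE A B' hA hB' h)
  have N3 : ¬ ∀ χ, Kk B χ ↔ Kk A' χ := fun h => n3 (hE B A' hB hA' h)
  have N4 : ¬ ∀ χ, Kk B χ ↔ Kk B' χ := fun h => n4 (hE B B' hB hB' h)
  have Q1 : ∀ f, ¬ al A f → al B f → ∀ χ, Kk A χ ↔ (Kk A' χ ∧ Kk B' χ) := by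
    intro f h1 h2
    by_cases h3 : al A' f
    · by_cases h4 : al B' f
      · intro χ
        simpa [h1, h2, h3, h4] using hS f χ
      · exact absurd (fun χ => by simpa [h1, h2, h3, h4] using hS f χ) N2
    · by_cases h4 : al B' f
      · exact absurd (fun χ => by simpa [h1, h2, h3, h4] using hS f χ) N1
      · obtain ⟨χ, hχ⟩ := ne A hA
        exact absurd (by simpa [h1, h2, h3, h4] using hS f χ) hχ
  have Q2 : ∀ f, al A f → ¬ al B f → ∀ χ, Kk B χ ↔ (Kk A' χ ∧ Kk B' χ) := by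
    intro f h1 h2
    by_cases h3 : al A' f
    · by_cases h4 : al B' f
      · intro χ
        simpa [h1, h2, h3, h4] using hS f χ
      · exact absurd (fun χ => by simpa [h1, h2, h3, h4] using hS f χ) N4
    · by_cases h4 : al B' f
      · exact absurd (fun χ => by simpa [h1, h2, h3, h4] using hS f χ) N3
      · obtain ⟨χ, hχ⟩ := ne B hB
        exact absurd (by simpa [h1, h2, h3, h4] using hS f χ) hχ
  obtain ⟨g, gA, gB, gA', gB'⟩ := gen
  have Qg : ∀ χ, (Kk A χ ∧ Kk B χ) ↔ (Kk A' χ ∧ Kk B' χ) := by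
    intro χ
    simpa [gA, gB, gA', gB'] using hS g χ
  by_cases P1 : ∀ f, al A f → al B f
  · have m1 := mono A B hA hB P1
    by_cases P2 : ∀ f, al B f → al A f
    · have m2 := mono B A hB hA P2
      have eAB : ∀ f, al A f ↔ al B f := fun f => ⟨P1 f, P2 f⟩
      have kAB : ∀ χ, Kk B χ ↔ Kk A χ := fun χ => ⟨m1 χ, m2 χ⟩
      by_cases R1 : ∀ f, al A' f → al B' f
      · by_cases R2 : ∀ f, al B' f → al A' f
        · have r1 := mono A' B' hA' hB' R1
          have r2 := mono B' A' hB' hA' R2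
          refine N1 (fun χ => ?_)
          have h := Qg χ
          rw [kAB χ, and_self] at h
          exact ⟨fun a => (h.mp a).1, fun a => h.mpr ⟨a, r2 χ a⟩⟩
        · push Not at R2
          obtain ⟨f, h1, h2⟩ := R2
          by_cases hf : al A f
          · refine N1 (fun χ => ?_)
            have h := hS f χ
            simpa [h1, h2, hf, (eAB f).mp hf, kAB χ] using h
          · obtain ⟨χ, hχ⟩ := ne A' hA'
            have hb : ¬ al B f := fun a => hf (P2 f a)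
            exact absurd (by simpa [h1, h2, hf, hb] using hS f χ) hχ
      · push Not at R1
        obtain ⟨f, h1, h2⟩ := R1
        by_cases hf : al A f
        · refine N2 (fun χ => ?_)
          have h := hS f χ
          simpa [h1, h2, hf, (eAB f).mp hf, kAB χ] using h
        · obtain ⟨χ, hχ⟩ := ne B' hB'
          have hb : ¬ al B f := fun a => hf (P2 f a)
          exact absurd (by simpa [h1, h2, hf, hb] using hS f χ) hχ
    · have P2' := P2
      push Not at P2'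
      obtain ⟨f, h1, h2⟩ := P2'
      have q := Q1 f h2 h1
      have e : ∀ χ, Kk A χ ↔ Kk B χ := by
        intro χ
        rw [q χ, ← Qg χ]
        exact ⟨fun a => a.2, fun a => ⟨m1 χ a, a⟩⟩
      exact h2 ((hE A B hA hB e f).mpr h1)
  · push Not at P1
    obtain ⟨f, h1, h2⟩ := P1
    have q := Q2 f h1 h2
    by_cases P2 : ∀ f, al B f → al A f
    · have m1 := mono B A hB hA P2
      have e : ∀ χ, Kk A χ ↔ Kk B χ := by
        intro χ
        rw [q χ, ← Qg χ]
        exact ⟨fun a => ⟨a, m1 χ a⟩, fun a => a.1⟩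
      exact h2 ((hE A B hA hB e f).mp h1)
    · push Not at P2
      obtain ⟨f', h1', h2'⟩ := P2
      have q' := Q1 f' h2' h1'
      have e : ∀ χ, Kk A χ ↔ Kk B χ := fun χ => (q' χ).trans (q χ).symm
      exact h2 ((hE A B hA hB e f).mp h1)

/-- the hypotheses of the equal halves step that do not depend on the names -/
structure Ctx (M : T → Prop) (al : T → F → Prop) (Kk : T → C → Prop) (c : Λ → T → ℕ)
    (Iso : T → T → Prop) : Prop where
  mono : ∀ X Y, M X → M Y → (∀ f, al X f → al Y f) → ∀ χ, Kk Y χ → Kk X χ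
  ne : ∀ X, M X → ∃ χ, ¬ Kk X χ
  isoV : ∀ X Y, M X → M Y → (∀ f, al X f ↔ al Y f) → Iso X Y
  isoA : ∀ X Y, M X → M Y → Iso X Y → ∀ f, al X f ↔ al Y f
  isoc : ∀ X Y, M X → M Y → Iso X Y → ∀ ρ, c ρ X = c ρ Y
  test : ∀ ρ X, M X → (∀ Y, M Y → c ρ X ≤ c ρ Y) →
      ∃ χ, ¬ Kk X χ ∧ ∀ Y, M Y → c ρ X < c ρ Y → Kk Y χ
  hE : ∀ X Y, M X → M Y → (∀ ρ Z, M Z → c ρ X ≤ c ρ Z) → (∀ ρ, c ρ X = c ρ Y) →
      (∀ χ, Kk X χ ↔ Kk Y χ) → Iso X Y

/-- the invariants agree -/
def Sf (al : T → F → Prop) (Kk : T → C → Prop) (a b a' b' : T) : Prop :=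
  ∀ f χ, ((al b f → Kk a χ) ∧ (al a f → Kk b χ)) ↔ ((al b' f → Kk a' χ) ∧ (al a' f → Kk b' χ))

lemma Sf.swl {a b a' b' : T} (h : Sf al Kk a b a' b') : Sf al Kk b a a' b' :=
  fun f χ => by rw [and_comm]; exact h f χ

lemma Sf.swr {a b a' b' : T} (h : Sf al Kk a b a' b') : Sf al Kk a b b' a' :=
  fun f χ => (h f χ).trans and_comm

lemma Sf.symm {a b a' b' : T} (h : Sf al Kk a b a' b') : Sf al Kk a' b' a b :=
  fun f χ => (h f χ).symm

variable {M : T → Prop} {c : Λ → T → ℕ} {Iso : T → T → Prop}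

lemma sep (X : Ctx M al Kk c Iso) {a b a' b' : T} (ha : M a) (hb' : M b')
    (hS : Sf al Kk a b a' b') (ρ : Λ) (hmin : ∀ Y, M Y → c ρ a ≤ c ρ Y) (hlt : c ρ a < c ρ b') :
    ∀ f, al b f → al b' f := by
  intro f h1
  by_contra h2
  obtain ⟨χ, g1, g2⟩ := X.test ρ a ha hmin
  exact g1 (((hS f χ).mpr ⟨fun h => absurd h h2, fun _ => g2 b' hb' hlt⟩).1 h1)

lemma fin (X : Ctx M al Kk c Iso) {a b a' b' : T} (ha : M a) (hb : M b) (ha' : M a') (hb' : M b')
    (hM : ∀ Y, M Y → Y = a ∨ Y = b ∨ Y = a' ∨ Y = b')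
    (hS : Sf al Kk a b a' b') (hsum : ∀ ρ, c ρ a + c ρ b = c ρ a' + c ρ b') (hI : Iso b b') :
    Iso a a' := by
  have cb := X.isoc b b' hb hb' hI
  have ca : ∀ ρ, c ρ a = c ρ a' := fun ρ => by have := hsum ρ; have := cb ρ; omega
  have aI := X.isoA b b' hb hb' hI
  have kI : ∀ χ, Kk b χ ↔ Kk b' χ := fun χ =>
    ⟨X.mono b' b hb' hb (fun f h => (aI f).mpr h) χ, X.mono b b' hb hb' (fun f h => (aI f).mp h) χ⟩
  by_cases hle : ∀ ρ, c ρ a ≤ c ρ b
  · have hall : ∀ ρ Z, M Z → c ρ a ≤ c ρ Z := by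
      intro ρ Z hZ
      have h1 := hle ρ
      have h2 := cb ρ
      have h3 := ca ρ
      rcases hM Z hZ with rfl | rfl | rfl | rfl <;> omega
    have hS' : ∀ f χ, ((al b f → Kk a χ) ∧ (al a f → Kk b χ)) ↔
        ((al b f → Kk a' χ) ∧ (al a' f → Kk b χ)) := by
      intro f χ
      rw [aI f, kI χ]
      have := hS f χ
      rw [aI f, kI χ] at this
      exact this
    rcases lin hS' (X.mono b a hb ha) (X.mono b a' hb ha') (X.ne b hb) with h | h
    · exact X.hE a a' ha ha' hall ca h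
    · exact X.isoV a a' ha ha' h
  · push Not at hle
    obtain ⟨ρ, hρ⟩ := hle
    have h2 := cb ρ
    have h3 := ca ρ
    have m1 : ∀ Y, M Y → c ρ b ≤ c ρ Y := by
      intro Y hY
      rcases hM Y hY with rfl | rfl | rfl | rfl <;> omega
    have m2 : ∀ Y, M Y → c ρ b' ≤ c ρ Y := fun Y hY => h2 ▸ m1 Y hY
    refine X.isoV a a' ha ha' (fun f => ⟨?_, ?_⟩)
    · exact sep X hb ha' hS.swl.swr ρ m1 (by omega) f
    · exact sep X hb' ha hS.symm.swl.swr ρ m2 (by omega) f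

/-- both minima at the first children -/
lemma step (X : Ctx M al Kk c Iso) {a b a' b' : T} (ha : M a) (hb : M b) (ha' : M a') (hb' : M b')
    (hM : ∀ Y, M Y → Y = a ∨ Y = b ∨ Y = a' ∨ Y = b')
    (hS : Sf al Kk a b a' b') (hsum : ∀ ρ, c ρ a + c ρ b = c ρ a' + c ρ b') (ρ : Λ)
    (h : c ρ a < c ρ b) (h' : c ρ a' < c ρ b') (he : c ρ a = c ρ a') : Iso a a' ∧ Iso b b' := by
  have hs := hsum ρ
  have m1 : ∀ Y, M Y → c ρ a ≤ c ρ Y := by
    intro Y hY
    rcases hM Y hY with rfl | rfl | rfl | rfl <;> omega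
  have m2 : ∀ Y, M Y → c ρ a' ≤ c ρ Y := fun Y hY => he ▸ m1 Y hY
  have hI : Iso b b' := by
    refine X.isoV b b' hb hb' (fun f => ⟨?_, ?_⟩)
    · exact sep X ha hb' hS ρ m1 (by omega) f
    · exact sep X ha' hb hS.symm ρ m2 (by omega) f
  exact ⟨fin X ha hb ha' hb' hM hS hsum hI, hI⟩

/-- the whole equal halves step: `c ρ X` level counts, `Iso` isomorphism -/
theorem tie (X : Ctx M al Kk c Iso) {A B A' B' : T}
    (hA : M A) (hB : M B) (hA' : M A') (hB' : M B')
    (hM : ∀ X, M X → X = A ∨ X = B ∨ X = A' ∨ X = B')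
    (hS : ∀ f χ, ((al B f → Kk A χ) ∧ (al A f → Kk B χ)) ↔ ((al B' f → Kk A' χ) ∧ (al A' f → Kk B' χ)))
    (gen : ∃ f, al A f ∧ al B f ∧ al A' f ∧ al B' f)
    (hsum : ∀ ρ, c ρ A + c ρ B = c ρ A' + c ρ B') :
    (Iso A A' ∧ Iso B B') ∨ (Iso A B' ∧ Iso B A') := by
  have all4 : ∀ P : T → Prop, P A → P B → P A' → P B' → ∀ Y, M Y → P Y := by
    intro P h1 h2 h3 h4 Y hY
    rcases hM Y hY with rfl | rfl | rfl | rfl <;> assumption
  have gen' := gen
  obtain ⟨g, gA, gB, gA', gB'⟩ := gen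
  have Qg : ∀ χ, (Kk A χ ∧ Kk B χ) ↔ (Kk A' χ ∧ Kk B' χ) := by
    intro χ
    simpa [gA, gB, gA', gB'] using hS g χ
  have hmin : ∀ ρ, min (c ρ A) (c ρ B) = min (c ρ A') (c ρ B') := by
    intro ρ
    rcases lt_trichotomy (min (c ρ A) (c ρ B)) (min (c ρ A') (c ρ B')) with h | h | h
    · exfalso
      rcases le_total (c ρ A) (c ρ B) with h' | h'
      · rw [min_eq_left h'] at h
        obtain ⟨χ, h1, h2⟩ := X.test ρ A hA (all4 _ le_rfl h' (h.le.trans (min_le_left _ _))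
          (h.le.trans (min_le_right _ _)))
        exact h1 ((Qg χ).mpr ⟨h2 A' hA' (h.trans_le (min_le_left _ _)),
          h2 B' hB' (h.trans_le (min_le_right _ _))⟩).1
      · rw [min_eq_right h'] at h
        obtain ⟨χ, h1, h2⟩ := X.test ρ B hB (all4 _ h' le_rfl (h.le.trans (min_le_left _ _))
          (h.le.trans (min_le_right _ _)))
        exact h1 ((Qg χ).mpr ⟨h2 A' hA' (h.trans_le (min_le_left _ _)),
          h2 B' hB' (h.trans_le (min_le_right _ _))⟩).2
    · exact h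
    · exfalso
      rcases le_total (c ρ A') (c ρ B') with h' | h'
      · rw [min_eq_left h'] at h
        obtain ⟨χ, h1, h2⟩ := X.test ρ A' hA' (all4 _ (h.le.trans (min_le_left _ _))
          (h.le.trans (min_le_right _ _)) le_rfl h')
        exact h1 ((Qg χ).mp ⟨h2 A hA (h.trans_le (min_le_left _ _)),
          h2 B hB (h.trans_le (min_le_right _ _))⟩).1
      · rw [min_eq_right h'] at h
        obtain ⟨χ, h1, h2⟩ := X.test ρ B' hB' (all4 _ (h.le.trans (min_le_left _ _))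
          (h.le.trans (min_le_right _ _)) h' le_rfl)
        exact h1 ((Qg χ).mp ⟨h2 A hA (h.trans_le (min_le_left _ _)),
          h2 B hB (h.trans_le (min_le_right _ _))⟩).2
  have S1 : Sf al Kk A B A' B' := hS
  by_cases hc : ∀ ρ, c ρ A = c ρ B
  · -- all four counts agree
    have e1 : ∀ ρ, c ρ A' = c ρ A ∧ c ρ B' = c ρ A := by
      intro ρ
      have h1 := hc ρ
      have h2 := hsum ρ
      have h3 := hmin ρ
      rw [min_def, min_def] at h3
      split_ifs at h3 <;> omega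
    have hcc : ∀ ρ Y Z, M Y → M Z → c ρ Y = c ρ Z := by
      intro ρ Y Z hY hZ
      have h1 := hc ρ
      have h2 := e1 ρ
      rw [all4 (fun Y => c ρ Y = c ρ A) rfl h1.symm h2.1 h2.2 Y hY,
        all4 (fun Y => c ρ Y = c ρ A) rfl h1.symm h2.1 h2.2 Z hZ]
    have hE : ∀ X Y, M X → M Y → (∀ χ, Kk X χ ↔ Kk Y χ) → ∀ f, al X f ↔ al Y f := by
      intro Y Z hY hZ h
      exact X.isoA Y Z hY hZ (X.hE Y Z hY hZ (fun ρ W hW => (hcc ρ Y W hY hW).le)
        (fun ρ => hcc ρ Y Z hY hZ) h)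
    rcases common hA hB hA' hB' hS X.mono gen' X.ne hE with h | h | h | h
    · have hI := X.isoV A A' hA hA' h
      refine Or.inl ⟨hI, fin X hB hA hB' hA' ?_ S1.swl.swr (fun ρ => ?_) hI⟩
      · intro Y hY; rcases hM Y hY with h | h | h | h <;> simp [h]
      · have := hsum ρ; omega
    · have hI := X.isoV A B' hA hB' h
      refine Or.inr ⟨hI, fin X hB hA hA' hB' ?_ S1.swl (fun ρ => ?_) hI⟩
      · intro Y hY; rcases hM Y hY with h | h | h | h <;> simp [h]
      · have := hsum ρ; omega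
    · have hI := X.isoV B A' hB hA' h
      refine Or.inr ⟨fin X hA hB hB' hA' ?_ S1.swr (fun ρ => ?_) hI, hI⟩
      · intro Y hY; rcases hM Y hY with h | h | h | h <;> simp [h]
      · have := hsum ρ; omega
    · have hI := X.isoV B B' hB hB' h
      exact Or.inl ⟨fin X hA hB hA' hB' hM S1 hsum hI, hI⟩
  · push Not at hc
    obtain ⟨ρ, hρ⟩ := hc
    have h2 := hsum ρ
    have h3 := hmin ρ
    rcases lt_or_gt_of_ne hρ with h | h
    · rw [min_eq_left h.le] at h3
      rcases le_total (c ρ A') (c ρ B') with h' | h'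
      · rw [min_eq_left h'] at h3
        exact Or.inl (step X hA hB hA' hB' hM S1 hsum ρ h (by omega) h3)
      · rw [min_eq_right h'] at h3
        refine Or.inr (step X hA hB hB' hA' ?_ S1.swr (fun ρ => ?_) ρ h (by omega) h3)
        · intro Y hY; rcases hM Y hY with h | h | h | h <;> simp [h]
        · have := hsum ρ; omega
    · rw [min_eq_right h.le] at h3
      rcases le_total (c ρ A') (c ρ B') with h' | h'
      · rw [min_eq_left h'] at h3
        refine Or.inr (step X hB hA hA' hB' ?_ S1.swl (fun ρ => ?_) ρ h (by omega) h3).symm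
        · intro Y hY; rcases hM Y hY with h | h | h | h <;> simp [h]
        · have := hsum ρ; omega
      · rw [min_eq_right h'] at h3
        refine Or.inl (step X hB hA hB' hA' ?_ S1.swl.swr (fun ρ => ?_) ρ h (by omega) h3).symm
        · intro Y hY; rcases hM Y hY with h | h | h | h <;> simp [h]
        · have := hsum ρ; omega

end Pool.Agent.BC78.TieLogic65
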