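import Pool.Agent.BC78.BZ.Sig

/-! Basic lemmas on products of labelled Lie monomials. -/

namespace Pool.Agent.BC78.BZ

open Pool.Agent.H25 Pool.Agent.BC78.BK

section
variable {α β : Type} {K : Type*} [Field K]

theorem pval_congr (Rs : List (BK.LT α)) {φ χ : List α → K} (h : ∀ w, φ w = χ w) :
    pval Rs φ = pval Rs χ := by
  have : φ = χ := funext h
  rw [this]

theorem pval_zero (Rs : List (BK.LT α)) : pval Rs (fun _ => (0 : K)) = 0 := by
  induction Rs with
  | nil => rfl
  | cons R Rs ih => simp only [pval, val_zero, ih]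

theorem pval_append (Rs Ss : List (BK.LT α)) (φ : List α → K) :
    pval (Rs ++ Ss) φ = pval Ss (fun p => pval Rs (fun q => φ (p ++ q))) := by
  induction Rs generalizing φ with
  | nil => simp only [List.nil_append, pval, List.append_nil]
  | cons R Rs ih => simp only [List.cons_append, pval, ih, List.append_assoc]

theorem pval_map (f : α → β) (Rs : List (BK.LT α)) (φ : List β → K) :
    pval (Rs.map (BK.LT.map f)) φ = pval Rs (fun w => φ (w.map f)) := by
  induction Rs generalizing φ with
  | nil => simp only [List.map_nil, pval]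
  | cons R Rs ih => simp only [List.map_cons, pval, ih, val_map, List.map_append]

theorem pval_sub (Rs : List (BK.LT α)) (φ χ : List α → K) :
    pval Rs (fun w => φ w - χ w) = pval Rs φ - pval Rs χ := by
  induction Rs generalizing φ χ with
  | nil => rfl
  | cons R Rs ih => simp only [pval, val_sub, ih]

theorem pval_add (Rs : List (BK.LT α)) (φ χ : List α → K) :
    pval Rs (fun w => φ w + χ w) = pval Rs φ + pval Rs χ := by
  induction Rs generalizing φ χ with
  | nil => rfl
  | cons R Rs ih => simp only [pval, val_add, ih]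

theorem pval_mul_left (Rs : List (BK.LT α)) (c : K) (φ : List α → K) :
    pval Rs (fun w => c * φ w) = c * pval Rs φ := by
  induction Rs generalizing φ with
  | nil => rfl
  | cons R Rs ih => simp only [pval, val_mul_left, ih]

/-- Fubini -/
theorem pval_val (Rs : List (BK.LT α)) (M : BK.LT β) (F : List α → List β → K) :
    pval Rs (fun p => M.val (fun q => F p q)) = M.val (fun q => pval Rs (fun p => F p q)) := by
  induction Rs generalizing F with
  | nil => simp only [pval]
  | cons R Rs ih =>
    simp only [pval]
    rw [← ih]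
    simp only [val_val R M]

/-- Fubini -/
theorem pval_pval (Rs : List (BK.LT α)) (Ss : List (BK.LT β)) (F : List α → List β → K) :
    pval Rs (fun p => pval Ss (fun q => F p q)) = pval Ss (fun q => pval Rs (fun p => F p q)) := by
  induction Rs generalizing F with
  | nil => simp only [pval]
  | cons R Rs ih =>
    simp only [pval]
    rw [← ih]
    simp only [← pval_val]

theorem pval_singleton (R : BK.LT α) (φ : List α → K) : pval [R] φ = R.val φ := by
  simp only [pval, List.nil_append]

theorem pk_congr {φ χ : List α → K} (h : ∀ w, φ w = χ w) {gs : List BT} (h1 : PK φ gs) : PK χ gs := by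
  have : φ = χ := funext h
  rwa [← this]

theorem map_encode [Encodable α] [Inhabited α] (w : List α) :
    (w.map Encodable.encode).map (fun n : ℕ => ((Encodable.decode n : Option α).getD default)) = w := by
  rw [List.map_map]
  have : ((fun n : ℕ => ((Encodable.decode n : Option α).getD default)) ∘ (Encodable.encode : α → ℕ)) = id := by
    funext x
    simp only [Function.comp, Encodable.encodek, Option.getD_some, id]
  rw [this, List.map_id]

theorem pk_map {f : β → α} {φ : List α → K} {gs : List BT} (h : PK φ gs) :
    PK (fun w : List β => φ (w.map f)) gs := by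
  intro Rs hRs
  rw [← pval_map]
  refine h _ ?_
  rw [List.map_map, ← hRs]
  exact List.map_congr_left (fun R _ => shape_map f R)

theorem ik_map {f : β → α} {φ : List α → K} {I : Set BT} (h : IK φ I) :
    IK (fun w : List β => φ (w.map f)) I := by
  intro R hR u v
  simp only [List.map_append]
  rw [← val_map f R (fun w => φ (u.map f ++ w ++ v.map f))]
  exact h _ (by rwa [shape_map]) _ _

theorem pk_of_encode [Encodable α] [Inhabited α] {φ : List α → K} {gs : List BT}
    (h : PK (fun w : List ℕ => φ (w.map (fun n : ℕ => ((Encodable.decode n : Option α).getD default)))) gs) :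
    PK φ gs := by
  refine pk_congr (χ := φ) (fun w => ?_)
    (pk_map (f := (Encodable.encode : α → ℕ)) h)
  show φ _ = φ w
  rw [map_encode]

/-- functionals over any countable alphabet can be moved to `ℕ` -/
theorem hyp_any {α : Type} [Encodable α] [Inhabited α] {I : Set BT} {hs : List BT} {A A' : BT}
    (h : Hyp K I hs A A') (φ : List α → K) (h1 : IK φ I) (h2 : ∀ p ∈ paths A', PK φ (p ++ hs)) :
    ∀ p ∈ paths A, PK φ (p ++ hs) := fun p hp =>
  pk_of_encode (h _ (ik_map h1) (fun p hp => pk_map (h2 p hp)) p hp)

theorem sub_any {α : Type} [Encodable α] [Inhabited α] {X Y : BT} (h : Sub K X Y) (φ : List α → K)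
    (h1 : PK φ [Y]) : PK φ [X] :=
  pk_of_encode (h _ (pk_map h1))

/-- the value on a product as the value of one factor -/
theorem pval_mid (As Bs : List (BK.LT α)) (R : BK.LT α) (φ : List α → K) :
    pval (As ++ R :: Bs) φ = R.val (fun r => pval Bs (fun p => pval As (fun q => φ (p ++ r ++ q)))) := by
  rw [pval_append]
  simp only [pval]
  exact pval_val Bs R (fun p r => pval As (fun q => φ (p ++ r ++ q)))

theorem exists_split {Rs : List (BK.LT α)} {as bs : List BT} {X : BT}
    (h : Rs.map BK.LT.shape = as ++ X :: bs) : ∃ (As : List (BK.LT α)) (R : BK.LT α) (Bs : List (BK.LT α)), Rs = As ++ R :: Bs ∧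
      As.map BK.LT.shape = as ∧ R.shape = X ∧ Bs.map BK.LT.shape = bs := by
  obtain ⟨As, Cs, rfl, hA, hC⟩ := List.map_eq_append_iff.1 h
  obtain ⟨R, Bs, rfl, hR, hB⟩ := List.map_eq_cons_iff.1 hC
  exact ⟨As, R, Bs, rfl, hA, hR, hB⟩

/-- replacing a factor by a smaller one -/
theorem pk_sub {X Y : BT} (h : Sub K X Y) (φ : List α → K) [Encodable α] [Inhabited α] (as bs : List BT)
    (h1 : PK φ (as ++ Y :: bs)) : PK φ (as ++ X :: bs) := by
  intro Rs hRs
  obtain ⟨As, R, Bs, rfl, hA, hR, hB⟩ := exists_split hRs
  rw [pval_mid, ← pval_singleton]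
  refine sub_any h _ ?_ [R] (by rw [List.map_cons, List.map_nil, hR])
  intro Ss hSs
  obtain ⟨S, Ss', rfl, hS, hS'⟩ := List.map_eq_cons_iff.1 hSs
  rw [List.map_eq_nil_iff] at hS'
  subst hS'
  rw [pval_singleton, ← pval_mid]
  refine h1 _ ?_
  rw [List.map_append, List.map_cons, hA, hS, hB]

/-- the value of isomorphic labelled trees -/
theorem exists_iso {X Y : BT} (h : BT.Iso X Y) : ∀ L : BK.LT α, L.shape = X →
    ∃ M : BK.LT α, M.shape = Y ∧ M.leaves.Perm L.leaves ∧ ∃ c : K, (c = 1 ∨ c = -1) ∧ ∀ φ : List α → K, L.val φ = c * M.val φ := by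
  induction h with
  | leaf =>
    intro L hL
    exact ⟨L, hL, List.Perm.refl _, 1, Or.inl rfl, fun φ => by rw [one_mul]⟩
  | node _ _ iha ihb =>
    intro L hL
    cases L with
    | leaf x => simp [BK.LT.shape] at hL
    | node a b =>
      simp only [BK.LT.shape, BT.node.injEq] at hL
      obtain ⟨M1, h1, p1, c1, hc1, e1⟩ := iha a hL.1
      obtain ⟨M2, h2, p2, c2, hc2, e2⟩ := ihb b hL.2
      refine ⟨BK.LT.node M1 M2, by rw [BK.LT.shape, h1, h2], ?_, c1 * c2, ?_, fun φ => ?_⟩
      · rw [BK.LT.leaves, BK.LT.leaves]; exact p1.append p2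
      · rcases hc1 with rfl | rfl <;> rcases hc2 with rfl | rfl <;> simp
      · rw [BK.LT.val, BK.LT.val]
        simp only [e1, e2, val_mul_left]
        ring
  | swap _ _ iha ihb =>
    intro L hL
    cases L with
    | leaf x => simp [BK.LT.shape] at hL
    | node a b =>
      simp only [BK.LT.shape, BT.node.injEq] at hL
      obtain ⟨M1, h1, p1, c1, hc1, e1⟩ := iha a hL.1
      obtain ⟨M2, h2, p2, c2, hc2, e2⟩ := ihb b hL.2
      refine ⟨BK.LT.node M2 M1, by rw [BK.LT.shape, h1, h2], ?_, -(c1 * c2), ?_, fun φ => ?_⟩
      · rw [BK.LT.leaves, BK.LT.leaves]; exact List.perm_append_comm.trans (p1.append p2)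
      · rcases hc1 with rfl | rfl <;> rcases hc2 with rfl | rfl <;> simp
      · rw [BK.LT.val, BK.LT.val]
        simp only [e1, e2, val_mul_left]
        ring

theorem sub_of_iso {X Y : BT} (h : BT.Iso X Y) : Sub K X Y := by
  intro φ hφ Rs hRs
  obtain ⟨R, Rs', rfl, hR, hR'⟩ := List.map_eq_cons_iff.1 hRs
  rw [List.map_eq_nil_iff] at hR'
  subst hR'
  obtain ⟨M, hM, _, c, _, e⟩ := exists_iso (K := K) h R hR
  have := hφ [M] (by rw [List.map_cons, List.map_nil, hM])
  rw [pval_singleton] at this ⊢
  rw [e, this, mul_zero]

/-- a dead factor kills the product -/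
theorem pk_dead {I : Set BT} {h : BT} (hd : ¬ Alive K I h) (φ : List ℕ → K) (h1 : IK φ I)
    (gs : List BT) (hg : h ∈ gs) : PK φ gs := by
  intro Rs hRs
  obtain ⟨as, bs, rfl⟩ := List.append_of_mem hg
  obtain ⟨As, R, Bs, rfl, hA, hR, hB⟩ := exists_split hRs
  rw [pval_mid, ← pval_singleton]
  by_contra hne
  refine hd ⟨_, ?_, fun hk => hne (hk [R] (by rw [List.map_cons, List.map_nil, hR]))⟩
  intro S hS u v
  show S.val (fun w => pval Bs (fun p => pval As (fun q => φ (p ++ (u ++ w ++ v) ++ q)))) = 0
  rw [← pval_val Bs S (fun p w => pval As (fun q => φ (p ++ (u ++ w ++ v) ++ q)))]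
  have : ∀ p : List ℕ, S.val (fun w => pval As (fun q => φ (p ++ (u ++ w ++ v) ++ q))) = 0 := by
    intro p
    rw [← pval_val As S (fun q w => φ (p ++ (u ++ w ++ v) ++ q))]
    have : ∀ q : List ℕ, S.val (fun w => φ (p ++ (u ++ w ++ v) ++ q)) = 0 := by
      intro q
      have := h1 S hS (p ++ u) (v ++ q)
      simpa only [List.append_assoc] using this
    simp only [this, pval_zero]
  simp only [this, pval_zero]

/-- the indicator function of the word of leaves -/
theorem val_ind [DecidableEq α] (L : BK.LT α) (hL : L.leaves.Nodup) :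
    L.val (fun w => if w = L.leaves then (1 : K) else 0) = 1 := by
  induction L with
  | leaf x => simp [BK.LT.val, BK.LT.leaves]
  | node a b iha ihb =>
    rw [BK.LT.leaves, List.nodup_append] at hL
    obtain ⟨ha, hb, hab⟩ := hL
    rw [BK.LT.val]
    have e1 : a.val (fun p => b.val (fun q => if p ++ q = (BK.LT.node a b).leaves then (1 : K) else 0)) =
        a.val (fun p => b.val (fun q => (if p = a.leaves then (1 : K) else 0) * (if q = b.leaves then (1 : K) else 0))) := by
      refine val_congr a (fun p hp => val_congr b (fun q hq => ?_))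
      rw [BK.LT.leaves]
      by_cases h1 : p = a.leaves
      · by_cases h2 : q = b.leaves
        · simp [h1, h2]
        · simp [h1, h2]
      · have : ¬ (p ++ q = a.leaves ++ b.leaves) := by
          intro h
          exact h1 (List.append_inj_left h hp.length_eq)
        simp [h1, this]
    have e2 : b.val (fun q => a.val (fun p => if q ++ p = (BK.LT.node a b).leaves then (1 : K) else 0)) =
        b.val (fun q => a.val (fun p => (0 : K))) := by
      refine val_congr b (fun q hq => val_congr a (fun p hp => ?_))
      rw [BK.LT.leaves]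
      rw [if_neg]
      intro h
      have hq0 : q ≠ [] := by
        intro h0
        have := hq.length_eq
        rw [length_leaves, h0] at this
        have := BT.lv_pos b.shape
        simp at *
        omega
      have ha0 : a.leaves ≠ [] := by
        intro h0
        have := length_leaves a
        rw [h0] at this
        have := BT.lv_pos a.shape
        simp at *
        omega
      obtain ⟨x, q', rfl⟩ := List.exists_cons_of_ne_nil hq0
      obtain ⟨y, a', hy⟩ := List.exists_cons_of_ne_nil ha0
      rw [hy, List.cons_append, List.cons_append, List.cons.injEq] at h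
      have hx : x ∈ b.leaves := hq.subset (by simp)
      have hy' : y ∈ a.leaves := by rw [hy]; simp
      exact hab y hy' x hx h.1.symm
    rw [e1, e2]
    simp only [val_mul_left, val_mul_right, iha ha, ihb hb, val_zero]
    ring

theorem exists_labelled (X : BT) : ∀ c : ℕ, ∃ L : BK.LT ℕ, L.shape = X ∧ L.leaves = List.range' c X.lv := by
  induction X with
  | leaf => exact fun c => ⟨BK.LT.leaf c, rfl, by simp [BK.LT.leaves, BT.lv]⟩
  | node a b iha ihb =>
    intro c
    obtain ⟨L, hL, hl⟩ := iha c
    obtain ⟨M, hM, hm⟩ := ihb (c + a.lv)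
    refine ⟨BK.LT.node L M, by rw [BK.LT.shape, hL, hM], ?_⟩
    rw [BK.LT.leaves, hl, hm, BT.lv, List.range'_append_1]

/-- small trees are alive -/
theorem alive_of_lt {I : Set BT} {h : BT} (hI : ∀ S ∈ I, h.lv < S.lv) : Alive K I h := by
  obtain ⟨L, hL, hl⟩ := exists_labelled h 0
  refine ⟨fun w => if w = L.leaves then (1 : K) else 0, ?_, ?_⟩
  · intro R hR u v
    have : R.val (fun w => if u ++ w ++ v = L.leaves then (1 : K) else 0) = R.val (fun _ => (0 : K)) := by
      refine val_congr R (fun w hw => ?_)
      rw [if_neg]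
      intro h'
      have h1 := congrArg List.length h'
      rw [List.length_append, List.length_append, hw.length_eq, length_leaves, length_leaves, hL] at h1
      have := hI _ hR
      omega
    rw [this, val_zero]
  · intro hk
    have := hk [L] (by rw [List.map_cons, List.map_nil, hL])
    rw [pval_singleton, val_ind L (by rw [hl]; exact List.nodup_range')] at this
    exact one_ne_zero this

end

end Pool.Agent.BC78.BZ
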