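import Pool.Agent.BC78.BZ.Sig

/-! Row Z2: combinatorics of paths and of the numbers of minimal big clades. -/

namespace Pool.Agent.BC78.BZ

open Pool.Agent.H25 Pool.Agent.BC78.BK

section alive
variable {α : Type} {K : Type*} [Field K]

open Classical in
/-- the value of the indicator function of the word of the leaves -/
lemma val_ind_z2 (R : BK.LT α) (hR : R.leaves.Nodup) (c : K) :
    R.val (fun w => if w = R.leaves then c else 0) = c := by
  induction R generalizing c with
  | leaf x => simp [LT.val, LT.leaves]
  | node a b iha ihb =>
    rw [LT.leaves, List.nodup_append] at hR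
    obtain ⟨ha, hb, hab⟩ := hR
    rw [LT.val]
    have h1 : a.val (fun p => b.val (fun q => if p ++ q = (LT.node a b).leaves then c else 0)) =
        a.val (fun p => if p = a.leaves then c else 0) := by
      refine val_congr a (fun p hp => ?_)
      by_cases h : p = a.leaves
      · rw [if_pos h, h]
        rw [← ihb hb c]
        refine val_congr b (fun q hq => ?_)
        simp only [LT.leaves, List.append_cancel_left_eq]
        congr 1
        rw [ihb hb c]
      · rw [if_neg h]
        have : b.val (fun q => if p ++ q = (LT.node a b).leaves then c else 0) =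
            b.val (fun _ => (0 : K)) := by
          refine val_congr b (fun q hq => ?_)
          rw [if_neg]
          intro e
          rw [LT.leaves] at e
          exact h (List.append_inj e hp.length_eq).1
        rw [this, val_zero]
    have h2 : b.val (fun q => a.val (fun p => if q ++ p = (LT.node a b).leaves then c else 0)) = 0 := by
      refine (val_congr b (χ := fun _ => 0) (fun q hq => ?_)).trans (val_zero b)
      refine (val_congr a (χ := fun _ => 0) (fun p hp => ?_)).trans (val_zero a)
      rw [if_neg]
      intro e
      rw [LT.leaves] at e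
      have hq' : q ≠ [] := by
        intro h0
        have h3 := hq.length_eq
        rw [h0, length_leaves] at h3
        have := BT.lv_pos b.shape
        simp at h3
        omega
      have ha' : a.leaves ≠ [] := by
        intro h0
        have h3 := length_leaves a
        rw [h0] at h3
        have := BT.lv_pos a.shape
        simp at h3
        omega
      obtain ⟨x, q', rfl⟩ := List.exists_cons_of_ne_nil hq'
      obtain ⟨y, a', ha'⟩ := List.exists_cons_of_ne_nil ha'
      have hx : x ∈ b.leaves := hq.subset (by simp)
      have hy : y ∈ a.leaves := by rw [ha']; simp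
      rw [ha'] at e
      simp only [List.cons_append, List.cons.injEq] at e
      exact hab y hy x hx e.1.symm
    rw [h1, h2, iha ha c, sub_zero]

/-- every tree has a labelling with different labels -/
lemma exists_nodup (X : BT) (n : ℕ) : ∃ R : BK.LT ℕ, R.shape = X ∧ R.leaves.Nodup ∧
    ∀ x ∈ R.leaves, n ≤ x ∧ x < n + X.lv := by
  induction X generalizing n with
  | leaf => exact ⟨LT.leaf n, rfl, by simp [LT.leaves], by simp [LT.leaves, BT.lv]⟩
  | node a b iha ihb =>
    obtain ⟨R, h1, h2, h3⟩ := iha n
    obtain ⟨S, k1, k2, k3⟩ := ihb (n + a.lv)
    refine ⟨LT.node R S, by rw [LT.shape, h1, k1], ?_, ?_⟩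
    · rw [LT.leaves, List.nodup_append]
      refine ⟨h2, k2, fun x hx y hy => ?_⟩
      have := h3 x hx
      have := k3 y hy
      omega
    · intro x hx
      rw [LT.leaves, List.mem_append] at hx
      rw [BT.lv]
      rcases hx with hx | hx
      · have := h3 x hx
        omega
      · have := k3 x hx
        omega

end alive

variable {K : Type*} [Field K]

open Classical in
theorem sub_lv {X Y : BT} (h : Sub K X Y) : X.lv = Y.lv := by
  by_contra hne
  obtain ⟨R, h1, h2, -⟩ := exists_nodup X 0
  have hk := h (fun w => if w = R.leaves then 1 else 0) (by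
    intro Rs hRs
    cases Rs with
    | nil => simp at hRs
    | cons S Ss =>
      cases Ss with
      | cons _ _ => simp at hRs
      | nil =>
        simp only [List.map_cons, List.map_nil, List.cons.injEq, and_true] at hRs
        simp only [pval, List.nil_append]
        refine (val_congr S (χ := fun _ => 0) (fun w hw => ?_)).trans (val_zero S)
        rw [if_neg]
        intro e
        have h3 := hw.length_eq
        rw [e, length_leaves, length_leaves, h1, hRs] at h3
        exact hne h3)
  have := hk [R] (by simp [h1])
  simp only [pval, List.nil_append] at this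
  refine one_ne_zero (α := K) ?_
  rw [← val_ind_z2 R h2 (1 : K)]
  convert this

theorem path_lv {A : BT} {p : List BT} (h : p ∈ paths A) : (p.map BT.lv).sum + 1 = A.lv := by
  induction A generalizing p with
  | leaf =>
    simp only [paths, List.mem_singleton] at h
    subst h
    rfl
  | node a b iha ihb =>
    rw [paths, List.mem_append, List.mem_map, List.mem_map] at h
    rcases h with ⟨q, hq, rfl⟩ | ⟨q, hq, rfl⟩
    · have := iha hq
      simp only [List.map_append, List.map_cons, List.map_nil, List.sum_append, List.sum_cons,
        List.sum_nil, BT.lv]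
      omega
    · have := ihb hq
      simp only [List.map_append, List.map_cons, List.map_nil, List.sum_append, List.sum_cons,
        List.sum_nil, BT.lv]
      omega

lemma big_lv {r : ℕ} {B : Option BT} {a : BT} (h : big K r B a) : r ≤ a.lv := by
  rcases h with h | h
  · exact h.le
  · exact h.1.ge

theorem big_mono {r : ℕ} {B : Option BT} {a b : BT} (h : big K r B a) (_hr : 1 ≤ r) :
    big K r B (BT.node a b) ∧ big K r B (BT.node b a) := by
  have h1 := big_lv h
  have h2 := BT.lv_pos b
  refine ⟨Or.inl ?_, Or.inl ?_⟩
  · rw [BT.lv]
    omega
  · rw [BT.lv]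
    omega

theorem cb_pos_iff {r : ℕ} (hr : 1 ≤ r) {B : Option BT} (S : BT) :
    1 ≤ cb K r B S ↔ big K r B S := by
  induction S with
  | leaf =>
    rw [cb]
    by_cases h : big K r B BT.leaf
    · simp [h]
    · simp [h]
  | node a b iha ihb =>
    rw [cb]
    split_ifs with h1 h2
    · simp [h2]
    · simp [h2]
    · constructor
      · intro _
        have : 1 ≤ cb K r B a ∨ 1 ≤ cb K r B b := by omega
        rcases this with h | h
        · exact (big_mono (iha.1 h) hr).1
        · exact (big_mono (ihb.1 h) hr).2
      · intro _
        omega

theorem cb_node {r : ℕ} (hr : 1 ≤ r) {B : Option BT} (a b : BT) (h : big K r B a ∨ big K r B b) :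
    cb K r B (BT.node a b) = cb K r B a + cb K r B b := by
  have h1 : ¬ (cb K r B a + cb K r B b = 0) := by
    rw [← cb_pos_iff hr, ← cb_pos_iff hr] at h
    omega
  rw [cb, if_neg h1]

lemma need_append {r : ℕ} {B : Option BT} (p q : List BT) :
    need K r B (p ++ q) = need K r B p + need K r B q := by
  simp [need]

lemma need_single {r : ℕ} {B : Option BT} (b : BT) : need K r B [b] = cb K r B b := by
  simp [need]

theorem need_path {r : ℕ} (_hr : 1 ≤ r) {B : Option BT} {A : BT} {p : List BT} (h : p ∈ paths A) :
    cb K r B A ≤ need K r B p + 1 := by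
  induction A generalizing p with
  | leaf =>
    rw [cb]
    split_ifs <;> omega
  | node a b iha ihb =>
    rw [paths, List.mem_append, List.mem_map, List.mem_map] at h
    rcases h with ⟨q, hq, rfl⟩ | ⟨q, hq, rfl⟩
    · have := iha hq
      rw [need_append, need_single, cb]
      split_ifs <;> omega
    · have := ihb hq
      rw [need_append, need_single, cb]
      split_ifs <;> omega

lemma exists_mem_paths : ∀ A : BT, ∃ p, p ∈ paths A
  | BT.leaf => ⟨[], by simp [paths]⟩
  | BT.node a b => by
    obtain ⟨p, hp⟩ := exists_mem_paths a
    exact ⟨p ++ [b], by rw [paths, List.mem_append, List.mem_map]; exact Or.inl ⟨p, hp, rfl⟩⟩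

lemma need_eq_zero {r : ℕ} {B : Option BT} {A : BT} (hA : cb K r B A = 0) {p : List BT}
    (h : p ∈ paths A) : need K r B p = 0 := by
  induction A generalizing p with
  | leaf =>
    simp only [paths, List.mem_singleton] at h
    subst h
    rfl
  | node a b iha ihb =>
    have h0 : cb K r B a + cb K r B b = 0 := by
      rw [cb] at hA
      split_ifs at hA with h1 h2
      · exact h1
      · exact hA
    rw [paths, List.mem_append, List.mem_map, List.mem_map] at h
    rcases h with ⟨q, hq, rfl⟩ | ⟨q, hq, rfl⟩
    · rw [need_append, need_single, iha (by omega) hq]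
      omega
    · rw [need_append, need_single, ihb (by omega) hq]
      omega

theorem exists_path {r : ℕ} (hr : 1 ≤ r) {B : Option BT} {A : BT} (hA : big K r B A) :
    ∃ p ∈ paths A, need K r B p + 1 = cb K r B A := by
  induction A with
  | leaf =>
    refine ⟨[], by simp [paths], ?_⟩
    rw [cb, if_pos hA]
    rfl
  | node a b iha ihb =>
    by_cases h1 : big K r B a
    · obtain ⟨p, hp, h2⟩ := iha h1
      refine ⟨p ++ [b], by rw [paths, List.mem_append, List.mem_map]; exact Or.inl ⟨p, hp, rfl⟩, ?_⟩
      rw [need_append, need_single, cb_node hr a b (Or.inl h1)]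
      omega
    · by_cases h2 : big K r B b
      · obtain ⟨p, hp, h3⟩ := ihb h2
        refine ⟨p ++ [a], by
          rw [paths, List.mem_append, List.mem_map, List.mem_map]; exact Or.inr ⟨p, hp, rfl⟩, ?_⟩
        rw [need_append, need_single, cb_node hr a b (Or.inr h2)]
        omega
      · rw [← cb_pos_iff hr] at h1 h2
        have h0 : cb K r B a + cb K r B b = 0 := by omega
        obtain ⟨p, hp⟩ := exists_mem_paths a
        refine ⟨p ++ [b], by rw [paths, List.mem_append, List.mem_map]; exact Or.inl ⟨p, hp, rfl⟩, ?_⟩
        rw [need_append, need_single, need_eq_zero (by omega) hp, cb, if_pos h0, if_pos hA]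
        omega

end Pool.Agent.BC78.BZ
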