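import Pool.Agent.BC78.BZ.Sig
import Pool.Agent.BC78.BK.Pen34

/-! Bahturin's question, penalty steps: restriction to classes of letters. -/

namespace Pool.Agent.BC78.BZ

open Pool.Agent.H25 Pool.Agent.BC78.BK

namespace Z4

section
variable {α β : Type} {K : Type*} [Field K]

lemma valL_append (As Bs : List (BK.LT α)) (φ : List α → K) :
    valL (As ++ Bs) φ = valL As (fun p => valL Bs (fun q => φ (p ++ q))) := by
  induction As generalizing φ with
  | nil => simp [valL]
  | cons A As ih => simp only [List.cons_append, valL, ih, List.append_assoc]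

lemma pval_eq (Rs : List (BK.LT α)) (φ : List α → K) : pval Rs φ = valL Rs.reverse φ := by
  induction Rs generalizing φ with
  | nil => rfl
  | cons R Rs ih => rw [pval, ih, List.reverse_cons, valL_append]; simp [valL]

lemma valL_map (f : α → β) (Rs : List (BK.LT α)) (φ : List β → K) :
    valL (Rs.map (BK.LT.map f)) φ = valL Rs (fun w => φ (w.map f)) := by
  induction Rs generalizing φ with
  | nil => simp [valL]
  | cons R Rs ih => simp only [List.map_cons, valL, ih, val_map, List.map_append]

lemma pk_iff (φ : List α → K) (gs : List BT) :
    PK φ gs ↔ ∀ Rs : List (BK.LT α), Rs.map BK.LT.shape = gs.reverse → valL Rs φ = 0 := by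
  constructor
  · intro h Rs hR
    have := h Rs.reverse (by rw [List.map_reverse, hR, List.reverse_reverse])
    rw [pval_eq, List.reverse_reverse] at this
    exact this
  · intro h Rs hR
    rw [pval_eq]
    exact h _ (by rw [List.map_reverse, hR])

lemma pk_one (φ : List α → K) (g : BT) : PK φ [g] ↔ ∀ R : BK.LT α, R.shape = g → R.val φ = 0 := by
  rw [pk_iff]
  constructor
  · intro h R hR
    have := h [R] (by simp [hR])
    simpa [valL] using this
  · intro h Rs hR
    match Rs, hR with
    | [R], hR =>
      simp only [List.map_cons, List.map_nil, List.reverse_cons, List.reverse_nil, List.nil_append,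
        List.cons.injEq, and_true] at hR
      simpa [valL] using h R hR
    | [], hR => simp at hR
    | _ :: _ :: _, hR => simp at hR

lemma length_of_ne {Ls : List (BK.LT α)} {φ : List α → K} {N : ℕ}
    (hφ : ∀ w, w.length ≠ N → φ w = 0) (h : valL Ls φ ≠ 0) :
    (Ls.map (fun L => L.shape.lv)).sum = N := by
  by_contra hne
  apply h
  rw [valL_congr Ls (χ := fun _ => 0), valL_zero]
  intro w hw
  apply hφ
  rw [hw.length_eq, List.length_flatMap]
  have : Ls.map (fun L => L.leaves.length) = Ls.map (fun L => L.shape.lv) := by
    refine List.map_congr_left (fun L _ => ?_)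
    exact length_leaves L
  rw [this]
  exact hne

/-- restricted functional -/
def res (n : ℕ) (φ : List α → K) (w : List α) : K := if w.length = n then φ w else 0

lemma res_supp (n : ℕ) (φ : List α → K) (w : List α) (h : w.length ≠ n) : res n φ w = 0 := by
  rw [res, if_neg h]

lemma ik_res {φ : List α → K} {I : Set BT} (n : ℕ) (h : IK φ I) : IK (res n φ) I := by
  intro R hR u v
  by_cases hl : u.length + R.leaves.length + v.length = n
  · rw [val_congr R (χ := fun w => φ (u ++ w ++ v))]
    · exact h R hR u v
    · intro w hw
      rw [res, if_pos]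
      rw [List.length_append, List.length_append, hw.length_eq, hl]
  · rw [val_congr R (χ := fun _ => 0), val_zero]
    intro w hw
    rw [res, if_neg]
    rw [List.length_append, List.length_append, hw.length_eq]
    exact hl

lemma val_res {φ : List α → K} (R : BK.LT α) : R.val (res R.shape.lv φ) = R.val φ := by
  refine val_congr R (fun w hw => ?_)
  rw [res, if_pos]
  rw [hw.length_eq, length_leaves]

lemma ik_mono {φ : List α → K} {I J : Set BT} (hIJ : I ⊆ J) (h : IK φ J) : IK φ I :=
  fun R hR => h R (hIJ hR)

lemma ik_map {φ : List β → K} {I : Set BT} (f : α → β) (h : IK φ I) :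
    IK (fun w : List α => φ (w.map f)) I := by
  intro R hR u v
  have := h (R.map f) (by rw [shape_map]; exact hR) (u.map f) (v.map f)
  rw [val_map] at this
  simpa only [List.map_append] using this

/-- the first letter -/
def fl : BK.LT α → α
  | BK.LT.leaf x => x
  | BK.LT.node a _ => fl a

lemma fl_mem : ∀ L : BK.LT α, fl L ∈ L.leaves
  | BK.LT.leaf x => by simp [fl, BK.LT.leaves]
  | BK.LT.node a b => by
    rw [fl, BK.LT.leaves]
    exact List.mem_append_left _ (fl_mem a)

lemma fl_map (f : α → β) : ∀ L : BK.LT α, fl (L.map f) = f (fl L)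
  | BK.LT.leaf x => rfl
  | BK.LT.node a b => by rw [BK.LT.map, fl, fl]; exact fl_map f a

lemma map_map {γ : Type} (f : α → β) (g : β → γ) : ∀ L : BK.LT α, (L.map f).map g = L.map (g ∘ f)
  | BK.LT.leaf x => rfl
  | BK.LT.node a b => by rw [BK.LT.map, BK.LT.map, BK.LT.map, map_map f g a, map_map f g b]

lemma map_id' : ∀ L : BK.LT α, L.map id = L
  | BK.LT.leaf x => rfl
  | BK.LT.node a b => by rw [BK.LT.map, map_id' a, map_id' b]

lemma ik_prod {ι : Type} [DecidableEq ι] (κ : α → ι) (S : Finset ι) (g : ι → List α → K)
    {I : Set BT} (hS : ∀ x, κ x ∈ S) (h : ∀ i ∈ S, IK (g i) I) : IK (prodφ κ S g) I := by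
  intro R hR u v
  by_cases hs : ∃ x ∈ R.leaves, ∃ y ∈ R.leaves, κ x ≠ κ y
  · exact prodφ_two_class κ S g R hs u v
  · push Not at hs
    have hi := hS (fl R)
    set i := κ (fl R) with hidef
    rw [val_congr R (χ := fun w => (∏ j ∈ S.erase i, g j ((u ++ v).filter (fun x => κ x = j))) *
      g i (u.filter (fun x => κ x = i) ++ w ++ v.filter (fun x => κ x = i))), val_mul_left,
      h i hi R hR, mul_zero]
    intro w hw
    have hwi : ∀ x ∈ w, κ x = i := fun x hx => hs x (hw.mem_iff.1 hx) (fl R) (fl_mem R)
    unfold prodφ
    rw [← Finset.prod_erase_mul S _ hi]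
    congr 1
    · refine Finset.prod_congr rfl (fun j hj => ?_)
      have hj' : j ≠ i := Finset.ne_of_mem_erase hj
      congr 1
      rw [List.filter_append, List.filter_append, List.filter_append]
      have : w.filter (fun x => κ x = j) = [] := by
        rw [List.filter_eq_nil_iff]
        intro x hx
        simp only [decide_eq_true_eq]
        intro hxj
        exact hj' (by rw [← hxj]; exact hwi x hx)
      rw [this, List.append_nil]
    · congr 1
      rw [List.filter_append, List.filter_append]
      congr 2
      rw [List.filter_eq_self]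
      intro x hx
      simpa using hwi x hx

end

section mix
variable {K : Type*} [Field K]

/-- the two functionals -/
def mixg (g F : List ℕ → K) (i : ℕ) (w : List ℕ) : K :=
  if i = 0 then g (w.map (· / 2)) else F (w.map (· / 2))

/-- product of two functionals on even and odd letters -/
def mix (g F : List ℕ → K) : List ℕ → K := prodφ (fun x : ℕ => x % 2) (Finset.range 2) (mixg g F)

lemma ik_mix {g F : List ℕ → K} {I : Set BT} (hg : IK g I) (hF : IK F I) : IK (mix g F) I := by
  refine ik_prod _ _ _ (fun x => ?_) (fun i _ => ?_)
  · simp only [Finset.mem_range]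
    exact Nat.mod_lt _ (by norm_num)
  · by_cases hi : i = 0
    · have : mixg g F i = fun w => g (w.map (· / 2)) := by funext w; rw [mixg, if_pos hi]
      rw [this]
      exact ik_map _ hg
    · have : mixg g F i = fun w => F (w.map (· / 2)) := by funext w; rw [mixg, if_neg hi]
      rw [this]
      exact ik_map _ hF

/-- class of a labelled tree -/
def cl (L : BK.LT ℕ) : ℕ := fl L % 2

lemma cl_cases (L : BK.LT ℕ) : cl L = 0 ∨ cl L = 1 := by
  have : fl L % 2 < 2 := Nat.mod_lt _ (by norm_num)
  rw [cl]
  omega

lemma mix_ne {g F : List ℕ → K} {Ls : List (BK.LT ℕ)} (h : valL Ls (mix g F) ≠ 0) :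
    valL ((Ls.filter (fun L => cl L = 0)).map (BK.LT.map (· / 2))) g ≠ 0 ∧
    valL ((Ls.filter (fun L => cl L = 1)).map (BK.LT.map (· / 2))) F ≠ 0 := by
  have hone : ∀ L ∈ Ls, ∀ x ∈ L.leaves, x % 2 = cl L := by
    intro L hL x hx
    by_contra hne
    apply h
    refine valL_zero_of_mem hL (fun u v => ?_)
    exact prodφ_two_class _ _ _ L ⟨x, hx, fl L, fl_mem L, hne⟩ u v
  rw [mix, valL_prodφ _ _ cl Ls _ hone (fun L _ => by
    rcases cl_cases L with h | h <;> rw [h] <;> simp)] at h
  rw [Finset.prod_range_succ, Finset.prod_range_one] at h
  have h1 := left_ne_zero_of_mul h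
  have h2 := right_ne_zero_of_mul h
  constructor
  · rw [valL_map]
    exact h1
  · rw [valL_map]
    exact h2

/-- put an item in a class -/
def inj (x : Bool × BK.LT ℕ) : BK.LT ℕ := x.2.map (fun n => 2 * n + x.1.toNat)

lemma inj_shape (x : Bool × BK.LT ℕ) : (inj x).shape = x.2.shape := by rw [inj, shape_map]

lemma cl_inj (x : Bool × BK.LT ℕ) : cl (inj x) = x.1.toNat := by
  rw [cl, inj, fl_map]
  rcases x.1 <;> simp

lemma mix_items (g F : List ℕ → K) (items : List (Bool × BK.LT ℕ)) :
    valL (items.map inj) (mix g F) =
      valL ((items.filter (fun x => x.1 = false)).map Prod.snd) g *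
      valL ((items.filter (fun x => x.1 = true)).map Prod.snd) F := by
  have hone : ∀ L ∈ items.map inj, ∀ x ∈ L.leaves, x % 2 = cl L := by
    intro L hL x hx
    obtain ⟨it, _, rfl⟩ := List.mem_map.1 hL
    rw [cl_inj]
    rw [inj, leaves_map, List.mem_map] at hx
    obtain ⟨n, _, rfl⟩ := hx
    rcases it.1 <;> simp
  rw [mix, valL_prodφ _ _ cl _ _ hone (fun L _ => by
    rcases cl_cases L with h | h <;> rw [h] <;> simp)]
  rw [Finset.prod_range_succ, Finset.prod_range_one]
  have e0 : (items.map inj).filter (fun L => cl L = 0) =
      ((items.filter (fun x => x.1 = false)).map Prod.snd).map (BK.LT.map (fun n => 2 * n)) := by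
    rw [List.filter_map, List.map_map]
    have : ((fun L => decide (cl L = 0)) ∘ inj) = (fun x : Bool × BK.LT ℕ => decide (x.1 = false)) := by
      funext x
      simp only [Function.comp, cl_inj]
      rcases x.1 <;> simp
    rw [this]
    refine List.map_congr_left (fun x hx => ?_)
    have hx1 : x.1 = false := by simpa using (List.mem_filter.1 hx).2
    simp only [Function.comp, inj, hx1, Bool.toNat_false, add_zero]
  have e1 : (items.map inj).filter (fun L => cl L = 1) =
      ((items.filter (fun x => x.1 = true)).map Prod.snd).map (BK.LT.map (fun n => 2 * n + 1)) := by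
    rw [List.filter_map, List.map_map]
    have : ((fun L => decide (cl L = 1)) ∘ inj) = (fun x : Bool × BK.LT ℕ => decide (x.1 = true)) := by
      funext x
      simp only [Function.comp, cl_inj]
      rcases x.1 <;> simp
    rw [this]
    refine List.map_congr_left (fun x hx => ?_)
    have hx1 : x.1 = true := by simpa using (List.mem_filter.1 hx).2
    simp only [Function.comp, inj, hx1, Bool.toNat_true]
  rw [e0, e1, valL_map, valL_map]
  congr 1
  · congr 1
    funext w
    rw [mixg, if_pos rfl, List.map_map]
    congr 1
    conv_rhs => rw [← List.map_id w]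
    refine List.map_congr_left (fun x _ => ?_)
    simp only [Function.comp, id]
    omega
  · congr 1
    funext w
    rw [mixg, if_neg (by norm_num), List.map_map]
    congr 1
    conv_rhs => rw [← List.map_id w]
    refine List.map_congr_left (fun x _ => ?_)
    simp only [Function.comp, id]
    omega

/-- a dead factor kills the product -/
lemma dead_zero {J : Set BT} {φ : List ℕ → K} (hφ : IK φ J) {Ls : List (BK.LT ℕ)} {L : BK.LT ℕ}
    (hL : L ∈ Ls) (hd : ¬ Alive K J L.shape) : valL Ls φ = 0 := by
  refine valL_zero_of_mem hL (fun u v => ?_)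
  by_contra hne
  apply hd
  refine ⟨fun w => φ (u ++ w ++ v), ?_, ?_⟩
  · intro R hR u' v'
    have := hφ R hR (u ++ u') (v' ++ v)
    simpa only [List.append_assoc] using this
  · intro hpk
    rw [pk_one] at hpk
    exact hne (hpk L rfl)

lemma sum_eq_of_le {α : Type} {f g : α → ℕ} : ∀ (l : List α), (∀ x ∈ l, f x ≤ g x) →
    (l.map g).sum ≤ (l.map f).sum → ∀ x ∈ l, f x = g x
  | [], _, _, x, hx => by simp at hx
  | a :: l, h, hs, x, hx => by
    rw [List.map_cons, List.map_cons, List.sum_cons, List.sum_cons] at hs
    have h1 : f a ≤ g a := h a List.mem_cons_self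
    have h2 : (l.map f).sum ≤ (l.map g).sum :=
      List.sum_le_sum (fun y hy => h y (List.mem_cons_of_mem _ hy))
    rcases List.mem_cons.1 hx with rfl | hx
    · omega
    · exact sum_eq_of_le l (fun y hy => h y (List.mem_cons_of_mem _ hy)) (by omega) x hx

lemma sum_filter {α : Type} (p : α → Bool) (f : α → ℕ) : ∀ l : List α,
    ((l.filter p).map f).sum = (l.map (fun x => if p x then f x else 0)).sum
  | [] => rfl
  | a :: l => by
    rw [List.filter_cons, List.map_cons, List.sum_cons, ← sum_filter p f l]
    by_cases h : p a = true
    · rw [if_pos h, if_pos h, List.map_cons, List.sum_cons]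
    · rw [if_neg h, if_neg h, zero_add]

open Classical in
/-- the decisive counting: with the right total size the dead factors are exactly the odd ones -/
lemma mix_core {J : Set BT} {g F : List ℕ → K} (hg : IK g J) {N : ℕ}
    (hF : ∀ w, w.length ≠ N → F w = 0) {Ls : List (BK.LT ℕ)} {gs : List BT}
    (hs : Ls.map BK.LT.shape = gs) (hv : valL Ls (mix g F) ≠ 0)
    (hN : N ≤ ((gs.filter (fun h => decide (¬ Alive K J h))).map BT.lv).sum) :
    ((gs.filter (fun h => decide (¬ Alive K J h))).map BT.lv).sum = N ∧
    (∃ As : List (BK.LT ℕ), As.map BK.LT.shape = gs.filter (fun h => decide (Alive K J h)) ∧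
      valL As g ≠ 0) ∧
    ∃ Ss : List (BK.LT ℕ), Ss.map BK.LT.shape = gs.filter (fun h => decide (¬ Alive K J h)) ∧
      valL Ss F ≠ 0 := by
  obtain ⟨h0, h1⟩ := mix_ne hv
  have hal : ∀ L ∈ Ls, cl L = 0 → Alive K J L.shape := by
    intro L hL hc
    by_contra hd
    apply h0
    refine dead_zero hg (L := L.map (· / 2)) ?_ (by rw [shape_map]; exact hd)
    exact List.mem_map.2 ⟨L, List.mem_filter.2 ⟨hL, by simpa using hc⟩, rfl⟩
  have hlen := length_of_ne hF h1
  rw [List.map_map] at hlen
  have hfun : ((fun L : BK.LT ℕ => L.shape.lv) ∘ BK.LT.map (· / 2)) = fun L : BK.LT ℕ => L.shape.lv := by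
    funext L
    simp only [Function.comp, shape_map]
  rw [hfun, sum_filter] at hlen
  have hdsum : ((gs.filter (fun h => decide (¬ Alive K J h))).map BT.lv).sum =
      (Ls.map (fun L => if decide (¬ Alive K J L.shape) = true then L.shape.lv else 0)).sum := by
    rw [sum_filter, ← hs, List.map_map]
    rfl
  have hle : ∀ L ∈ Ls, (if decide (¬ Alive K J L.shape) = true then L.shape.lv else 0) ≤
      (if decide (cl L = 1) = true then L.shape.lv else 0) := by
    intro L hL
    simp only [decide_eq_true_eq]
    by_cases hc : cl L = 1
    · rw [if_pos hc]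
      split_ifs <;> omega
    · have hc0 : cl L = 0 := by rcases cl_cases L with h | h <;> omega
      rw [if_neg (not_not.2 (hal L hL hc0))]
      exact Nat.zero_le _
  have heq := sum_eq_of_le Ls hle (by rw [hlen, ← hdsum]; exact hN)
  have hiff : ∀ L ∈ Ls, (cl L = 1 ↔ ¬ Alive K J L.shape) := by
    intro L hL
    have h := heq L hL
    have hp := L.shape.lv_pos
    simp only [decide_eq_true_eq] at h
    by_cases hc : cl L = 1 <;> by_cases ha : Alive K J L.shape
    · rw [if_neg (not_not.2 ha), if_pos hc] at h; omega
    · exact ⟨fun _ => ha, fun _ => hc⟩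
    · exact ⟨fun h' => absurd h' hc, fun h' => absurd ha h'⟩
    · rw [if_pos ha, if_neg hc] at h; omega
  refine ⟨?_, ⟨(Ls.filter (fun L => cl L = 0)).map (BK.LT.map (· / 2)), ?_, h0⟩,
    ⟨(Ls.filter (fun L => cl L = 1)).map (BK.LT.map (· / 2)), ?_, h1⟩⟩
  · rw [hdsum, ← hlen]
    congr 1
    exact List.map_congr_left heq
  · rw [List.map_map, ← hs, List.filter_map]
    have : Ls.filter (fun L => decide (cl L = 0)) =
        Ls.filter ((fun h => decide (Alive K J h)) ∘ BK.LT.shape) := by
      refine List.filter_congr (fun L hL => ?_)
      simp only [Function.comp, decide_eq_decide]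
      have := hiff L hL
      rcases cl_cases L with h | h
      · constructor
        · intro _
          by_contra hd
          have := this.2 hd
          omega
        · intro _; exact h
      · constructor
        · intro h'; omega
        · intro ha; exact absurd ha (this.1 h)
    rw [this]
    refine List.map_congr_left (fun L _ => ?_)
    simp only [Function.comp, shape_map]
  · rw [List.map_map, ← hs, List.filter_map]
    have : Ls.filter (fun L => decide (cl L = 1)) =
        Ls.filter ((fun h => decide (¬ Alive K J h)) ∘ BK.LT.shape) := by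
      refine List.filter_congr (fun L hL => ?_)
      simp only [Function.comp, decide_eq_decide]
      exact hiff L hL
    rw [this]
    refine List.map_congr_left (fun L _ => ?_)
    simp only [Function.comp, shape_map]

/-- interleaving -/
lemma interleave (p : BT → Prop) [DecidablePred p] : ∀ (gs : List BT) (As Ss : List (BK.LT ℕ)),
    As.map BK.LT.shape = gs.filter (fun h => decide (p h)) →
    Ss.map BK.LT.shape = gs.filter (fun h => decide (¬ p h)) →
    ∃ items : List (Bool × BK.LT ℕ), items.map (fun x => x.2.shape) = gs ∧
      (items.filter (fun x => x.1 = false)).map Prod.snd = As ∧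
      (items.filter (fun x => x.1 = true)).map Prod.snd = Ss
  | [], As, Ss, hA, hS => by
    refine ⟨[], rfl, ?_, ?_⟩
    · simpa using hA.symm
    · simpa using hS.symm
  | h :: gs, As, Ss, hA, hS => by
    by_cases hp : p h
    · rw [List.filter_cons, if_pos (by simpa using hp)] at hA
      rw [List.filter_cons, if_neg (by simpa using hp)] at hS
      match As, hA with
      | A :: As, hA =>
        rw [List.map_cons, List.cons.injEq] at hA
        obtain ⟨items, h1, h2, h3⟩ := interleave p gs As Ss hA.2 hS
        refine ⟨(false, A) :: items, ?_, ?_, ?_⟩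
        · rw [List.map_cons, h1, hA.1]
        · rw [List.filter_cons, if_pos (by simp), List.map_cons, h2]
        · rw [List.filter_cons, if_neg (by simp), h3]
    · rw [List.filter_cons, if_neg (by simpa using hp)] at hA
      rw [List.filter_cons, if_pos (by simpa using hp)] at hS
      match Ss, hS with
      | S :: Ss, hS =>
        rw [List.map_cons, List.cons.injEq] at hS
        obtain ⟨items, h1, h2, h3⟩ := interleave p gs As Ss hA hS.2
        refine ⟨(true, S) :: items, ?_, ?_, ?_⟩
        · rw [List.map_cons, h1, hS.1]
        · rw [List.filter_cons, if_neg (by simp), h2]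
        · rw [List.filter_cons, if_pos (by simp), List.map_cons, h3]

open Classical in
lemma mix_build {J : Set BT} (g F : List ℕ → K) (gs : List BT) (As Ss : List (BK.LT ℕ))
    (hA : As.map BK.LT.shape = gs.filter (fun h => decide (Alive K J h)))
    (hS : Ss.map BK.LT.shape = gs.filter (fun h => decide (¬ Alive K J h))) :
    ∃ Ts : List (BK.LT ℕ), Ts.map BK.LT.shape = gs ∧ valL Ts (mix g F) = valL As g * valL Ss F := by
  obtain ⟨items, h1, h2, h3⟩ := interleave (fun h => Alive K J h) gs As Ss hA hS
  refine ⟨items.map inj, ?_, ?_⟩
  · rw [List.map_map, ← h1]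
    refine List.map_congr_left (fun x _ => ?_)
    simp only [Function.comp, inj_shape]
  · rw [mix_items, h2, h3]

/-- the empty word -/
def epsφ (w : List ℕ) : K := if w = [] then 1 else 0

lemma ik_eps (I : Set BT) : IK (epsφ (K := K)) I := by
  intro R _ u v
  rw [val_congr R (χ := fun _ => 0), val_zero]
  intro w hw
  rw [epsφ, if_neg]
  intro h
  rw [List.append_eq_nil_iff, List.append_eq_nil_iff] at h
  rw [h.1.2] at hw
  exact leaves_ne_nil R (List.nil_perm.1 hw)

lemma alive_fun {I : Set BT} {h : BT} (ha : Alive K I h) : ∃ f : List ℕ → K, IK f I ∧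
    (∀ w, w.length ≠ h.lv → f w = 0) ∧ ∃ R : BK.LT ℕ, R.shape = h ∧ R.val f ≠ 0 := by
  obtain ⟨φ, h1, h2⟩ := ha
  rw [pk_one] at h2
  push Not at h2
  obtain ⟨R, hR, hv⟩ := h2
  refine ⟨res h.lv φ, ik_res _ h1, res_supp _ _, R, hR, ?_⟩
  rw [← hR, val_res]
  exact hv

/-- products of alive trees are alive -/
lemma alive_prod {I : Set BT} : ∀ gs : List BT, (∀ h ∈ gs, Alive K I h) →
    ∃ F : List ℕ → K, IK F I ∧ (∀ w, w.length ≠ (gs.map BT.lv).sum → F w = 0) ∧
      ∃ Ss : List (BK.LT ℕ), Ss.map BK.LT.shape = gs ∧ valL Ss F ≠ 0
  | [], _ => by
    refine ⟨epsφ, ik_eps I, ?_, [], rfl, ?_⟩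
    · intro w hw
      rw [epsφ, if_neg]
      rintro rfl
      exact hw rfl
    · rw [valL, epsφ, if_pos rfl]
      exact one_ne_zero
  | h :: gs, hal => by
    obtain ⟨f, f1, f2, R, hR, hv⟩ := alive_fun (hal h List.mem_cons_self)
    obtain ⟨F, F1, F2, Ss, hS, hw⟩ := alive_prod gs (fun x hx => hal x (List.mem_cons_of_mem _ hx))
    refine ⟨res ((h :: gs).map BT.lv).sum (mix f F), ik_res _ (ik_mix f1 F1), res_supp _ _,
      ((false, R) :: Ss.map (fun S => (true, S))).map inj, ?_, ?_⟩
    · rw [List.map_map, List.map_cons, List.map_map, ← hS]
      simp only [Function.comp_def, inj_shape, hR]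
    · have hval : valL (((false, R) :: Ss.map (fun S => (true, S))).map inj) (mix f F) =
          R.val f * valL Ss F := by
        rw [mix_items]
        congr 1
        · rw [List.filter_cons, if_pos (by simp)]
          have : (Ss.map (fun S => (true, S))).filter (fun x => decide (x.1 = false)) = [] := by
            rw [List.filter_eq_nil_iff]
            intro x hx
            obtain ⟨S, _, rfl⟩ := List.mem_map.1 hx
            simp
          rw [this]
          simp [valL]
        · rw [List.filter_cons, if_neg (by simp)]
          have : (Ss.map (fun S => (true, S))).filter (fun x => decide (x.1 = true)) =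
              Ss.map (fun S => (true, S)) := by
            rw [List.filter_eq_self]
            intro x hx
            obtain ⟨S, _, rfl⟩ := List.mem_map.1 hx
            simp
          rw [this, List.map_map]
          congr 1
          simp [Function.comp_def]
      have : valL (((false, R) :: Ss.map (fun S => (true, S))).map inj)
          (res ((h :: gs).map BT.lv).sum (mix f F)) =
          valL (((false, R) :: Ss.map (fun S => (true, S))).map inj) (mix f F) := by
        refine valL_congr _ (fun w hw' => ?_)
        rw [res, if_pos]
        rw [hw'.length_eq, List.length_flatMap, List.map_map]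
        have e : ((fun L : BK.LT ℕ => L.leaves.length) ∘ inj) =
            (fun x : Bool × BK.LT ℕ => x.2.shape.lv) := by
          funext x
          simp only [Function.comp, length_leaves, inj_shape]
        rw [e, List.map_cons, List.map_map, List.map_cons, List.sum_cons, List.sum_cons, ← hR, ← hS,
          List.map_map]
        rfl
      rw [this, hval]
      exact mul_ne_zero hv hw


/-- bins for the tie: `f` on one more bin than there are factors alive under `f` -/
lemma bins {I : Set BT} {q : ℕ} {f : List ℕ → K} (hq : 1 ≤ q) (hfI : IK f I)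
    (hf : ∀ w, w.length ≠ q → f w = 0) (y : BT) (hy : ¬ PK f [y]) :
    ∀ D : List BT, (∀ h ∈ D, Alive K I h) →
    ∃ F : List ℕ → K, IK F I ∧ (∀ w, w.length ≠ q + (D.map BT.lv).sum → F w = 0) ∧
      (∃ Ss : List (BK.LT ℕ), Ss.map BK.LT.shape = D ++ [y] ∧ valL Ss F ≠ 0) ∧
      ∀ Ls : List (BK.LT ℕ), valL Ls F ≠ 0 → D.length + 1 ≤ Ls.length ∧
        (Ls.length = D.length + 1 → ∀ P : BT → Bool, (∀ h, P h = true ↔ ¬ PK f [h]) →
          (D.filter P).length + 1 ≤ ((Ls.map BK.LT.shape).filter P).length)
  | [], _ => by
    refine ⟨f, hfI, by simpa using hf, ?_, ?_⟩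
    · rw [pk_one] at hy
      push Not at hy
      obtain ⟨R, hR, hv⟩ := hy
      exact ⟨[R], by simp [hR], by simpa [valL] using hv⟩
    · intro Ls hv
      have h1 := length_of_ne hf hv
      match Ls, hv, h1 with
      | [], _, h1 => simp at h1; omega
      | [L], hv, _ =>
        refine ⟨by simp, fun _ P hP => ?_⟩
        have : P L.shape = true := by
          rw [hP, pk_one]
          intro h
          exact hv (by simpa [valL] using h L rfl)
        simp [this]
      | _ :: _ :: _, _, _ => refine ⟨by simp, fun h => by simp at h⟩
  | d :: D, hal => by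
    obtain ⟨F, F1, F2, ⟨Ss, hS, hw⟩, F3⟩ := bins hq hfI hf y hy D
      (fun x hx => hal x (List.mem_cons_of_mem _ hx))
    obtain ⟨f', f1, f2, ⟨R, hR, hv⟩, f3⟩ : ∃ f' : List ℕ → K, IK f' I ∧
        (∀ w, w.length ≠ d.lv → f' w = 0) ∧ (∃ R : BK.LT ℕ, R.shape = d ∧ R.val f' ≠ 0) ∧
        (¬ PK f [d] → f' = f) := by
      by_cases hd : PK f [d]
      · obtain ⟨f', f1, f2, h3⟩ := alive_fun (hal d List.mem_cons_self)
        exact ⟨f', f1, f2, h3, fun h => absurd hd h⟩
      · rw [pk_one] at hd
        push Not at hd
        obtain ⟨R, hR, hv⟩ := hd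
        have hlv : d.lv = q := by
          by_contra hne
          apply hv
          rw [val_congr R (χ := fun _ => 0), val_zero]
          intro w hw
          apply hf
          rw [hw.length_eq, length_leaves, hR]
          exact hne
        exact ⟨f, hfI, by rw [hlv]; exact hf, ⟨R, hR, hv⟩, fun _ => rfl⟩
    have hmixlen : ∀ Ls : List (BK.LT ℕ), valL Ls (res (q + ((d :: D).map BT.lv).sum) (mix f' F)) ≠ 0 →
        valL Ls (mix f' F) ≠ 0 := by
      intro Ls h hz
      apply h
      have hl := length_of_ne (res_supp (q + ((d :: D).map BT.lv).sum) (mix f' F)) h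
      rw [← hz]
      refine valL_congr _ (fun w hw' => ?_)
      rw [res, if_pos]
      rw [hw'.length_eq, List.length_flatMap, ← hl]
      congr 1
      exact List.map_congr_left (fun L _ => length_leaves L)
    refine ⟨res (q + ((d :: D).map BT.lv).sum) (mix f' F), ik_res _ (ik_mix f1 F1), res_supp _ _,
      ⟨((false, R) :: Ss.map (fun S => (true, S))).map inj, ?_, ?_⟩, ?_⟩
    · rw [List.map_map, List.map_cons, List.map_map]
      simp only [Function.comp_def, inj_shape, hR]
      rw [List.cons_append, ← hS]
    · have hval : valL (((false, R) :: Ss.map (fun S => (true, S))).map inj) (mix f' F) =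
          R.val f' * valL Ss F := by
        rw [mix_items]
        congr 1
        · rw [List.filter_cons, if_pos (by simp)]
          have : (Ss.map (fun S => (true, S))).filter (fun x => decide (x.1 = false)) = [] := by
            rw [List.filter_eq_nil_iff]
            intro x hx
            obtain ⟨S, _, rfl⟩ := List.mem_map.1 hx
            simp
          rw [this]
          simp [valL]
        · rw [List.filter_cons, if_neg (by simp)]
          have : (Ss.map (fun S => (true, S))).filter (fun x => decide (x.1 = true)) =
              Ss.map (fun S => (true, S)) := by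
            rw [List.filter_eq_self]
            intro x hx
            obtain ⟨S, _, rfl⟩ := List.mem_map.1 hx
            simp
          rw [this, List.map_map]
          congr 1
          simp [Function.comp_def]
      have : valL (((false, R) :: Ss.map (fun S => (true, S))).map inj)
          (res (q + ((d :: D).map BT.lv).sum) (mix f' F)) =
          valL (((false, R) :: Ss.map (fun S => (true, S))).map inj) (mix f' F) := by
        refine valL_congr _ (fun w hw' => ?_)
        rw [res, if_pos]
        have hSl := length_of_ne F2 hw
        rw [hw'.length_eq, List.length_flatMap, List.map_map]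
        have e : ((fun L : BK.LT ℕ => L.leaves.length) ∘ inj) =
            (fun x : Bool × BK.LT ℕ => x.2.shape.lv) := by
          funext x
          simp only [Function.comp, length_leaves, inj_shape]
        rw [e, List.map_cons, List.map_map, List.map_cons, List.sum_cons, List.sum_cons, ← hR]
        simp only [Function.comp_def]
        rw [hSl]
        omega
      rw [this, hval]
      exact mul_ne_zero hv hw
    · intro Ls hLs
      obtain ⟨h0, h1⟩ := mix_ne (hmixlen Ls hLs)
      have hd := length_of_ne f2 h0
      obtain ⟨h2, h3⟩ := F3 _ h1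
      have hlen : (Ls.filter (fun L => cl L = 0)).length + (Ls.filter (fun L => cl L = 1)).length =
          Ls.length := by
        have e : Ls.filter (fun L => decide (cl L = 1)) = Ls.filter (fun L => !decide (cl L = 0)) := by
          refine List.filter_congr (fun L _ => ?_)
          rcases cl_cases L with h | h <;> simp [h]
        rw [e]
        exact (List.length_eq_length_filter_add (l := Ls) (fun L => decide (cl L = 0))).symm
      rw [List.length_map] at h2 h3
      have hpos : 1 ≤ (Ls.filter (fun L => cl L = 0)).length := by
        rcases Nat.eq_zero_or_pos (Ls.filter (fun L => cl L = 0)).length with h | h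
        · rw [List.length_eq_zero_iff] at h
          rw [h] at hd
          simp at hd
          have := d.lv_pos
          omega
        · exact h
      refine ⟨by rw [List.length_cons]; omega, ?_⟩
      intro hl P hP
      rw [List.length_cons] at hl
      have hl0 : (Ls.filter (fun L => cl L = 0)).length = 1 := by omega
      have h4 := h3 (by omega) P hP
      have hsplit : ((Ls.map BK.LT.shape).filter P).length =
          ((((Ls.filter (fun L => cl L = 0)).map (BK.LT.map (· / 2))).map BK.LT.shape).filter P).length +
          ((((Ls.filter (fun L => cl L = 1)).map (BK.LT.map (· / 2))).map BK.LT.shape).filter P).length := by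
        clear hLs h0 h1 hd h2 h3 hlen hpos hl hl0 h4 hmixlen
        induction Ls with
        | nil => rfl
        | cons L Ls ih =>
          rw [List.map_cons, List.filter_cons, List.filter_cons, List.filter_cons]
          rcases cl_cases L with h | h
          · rw [if_pos (show decide (cl L = 0) = true by simpa using h),
              if_neg (show ¬ decide (cl L = 1) = true by simp [h]), List.map_cons, List.map_cons,
              List.filter_cons, shape_map]
            split_ifs
            · rw [List.length_cons, List.length_cons, ih]; omega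
            · exact ih
          · rw [if_neg (show ¬ decide (cl L = 0) = true by simp [h]),
              if_pos (show decide (cl L = 1) = true by simpa using h), List.map_cons, List.map_cons,
              List.filter_cons, shape_map]
            split_ifs
            · rw [List.length_cons, List.length_cons, ih]; omega
            · exact ih
      rw [hsplit, List.filter_cons]
      split_ifs with hPd
      · have hfd := f3 ((hP d).1 hPd)
        obtain ⟨L, hL⟩ := List.length_eq_one_iff.1 hl0
        rw [hL] at h0 ⊢
        have hPL : P (L.map (· / 2)).shape = true := by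
          rw [hP, pk_one]
          intro h
          apply h0
          rw [hfd]
          simpa [valL] using h (L.map (· / 2)) rfl
        have : (([L].map (BK.LT.map (· / 2))).map BK.LT.shape).filter P = [(L.map (· / 2)).shape] := by
          simp only [List.map_cons, List.map_nil]
          rw [List.filter_cons, if_pos hPL, List.filter_nil]
        rw [this, List.length_cons, List.length_cons, List.length_nil]
        omega
      · omega

end mix

end Z4

section Z4
variable {K : Type*} [Field K]
open Z4

open Classical in
/-- PEN-2 -/
theorem pen2 {I J : Set BT} (hIJ : I ⊆ J) {hs : List BT} (hal : ∀ h ∈ hs, Alive K I h) {A A' : BT}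
    (h : Hyp K I hs A A') : Hyp K J (hs.filter (fun x => decide (Alive K J x))) A A' := by
  intro φ hφ hA' p hp
  by_cases hpd : ∀ x ∈ p, Alive K J x
  · rw [pk_iff]
    by_contra hcon
    push Not at hcon
    obtain ⟨As, hAs, hv⟩ := hcon
    set D := (hs.filter (fun h => decide (¬ Alive K J h))) with hD
    obtain ⟨F, F1, F2, Ss, hSs, hw⟩ := alive_prod (I := I) D.reverse
      (fun x hx => hal x (List.mem_of_mem_filter (List.mem_reverse.1 hx)))
    have hsumD : (D.reverse.map BT.lv).sum = (D.map BT.lv).sum := by
      rw [List.map_reverse, List.sum_reverse]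
    rw [hsumD] at F2
    have key := h (mix φ F) (ik_mix (ik_mono hIJ hφ) F1) ?_ p hp
    · rw [pk_iff] at key
      obtain ⟨Ts, hT, hval⟩ := mix_build (J := J) φ F (p ++ hs).reverse As Ss
        (by
          rw [hAs, List.filter_reverse, List.filter_append]
          congr 2
          rw [eq_comm, List.filter_eq_self]
          intro x hx
          simpa using hpd x hx)
        (by
          rw [hSs, List.filter_reverse, List.filter_append, ← hD]
          have : p.filter (fun h => decide (¬ Alive K J h)) = [] := by
            rw [List.filter_eq_nil_iff]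
            intro x hx
            simpa using hpd x hx
          rw [this, List.nil_append])
      have := key Ts hT
      rw [hval] at this
      exact mul_ne_zero hv hw this
    · intro p' hp'
      rw [pk_iff]
      intro Ls hLs
      by_contra hne
      have hsum : (((p' ++ hs).reverse.filter (fun h => decide (¬ Alive K J h))).map BT.lv).sum =
          ((p'.filter (fun h => decide (¬ Alive K J h))).map BT.lv).sum + (D.map BT.lv).sum := by
        rw [List.filter_reverse, List.map_reverse, List.sum_reverse, List.filter_append,
          List.map_append, List.sum_append]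
      obtain ⟨h1, ⟨Bs, hB, hBv⟩, _⟩ := mix_core hφ F2 hLs hne (by rw [hsum]; omega)
      have hp0 : p'.filter (fun h => decide (¬ Alive K J h)) = [] := by
        rw [hsum] at h1
        match hq : p'.filter (fun h => decide (¬ Alive K J h)), h1 with
        | [], _ => rfl
        | x :: xs, h1 =>
          rw [List.map_cons, List.sum_cons] at h1
          have := x.lv_pos
          omega
      have hp1 : ∀ x ∈ p', Alive K J x := by
        intro x hx
        by_contra hxd
        have : x ∈ p'.filter (fun h => decide (¬ Alive K J h)) :=
          List.mem_filter.2 ⟨hx, by simpa using hxd⟩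
        rw [hp0] at this
        simp at this
      have := hA' p' hp'
      rw [pk_iff] at this
      apply hBv
      apply this
      rw [hB, List.filter_reverse, List.filter_append]
      congr 2
      rw [List.filter_eq_self]
      intro x hx
      simpa using hp1 x hx
  · push Not at hpd
    obtain ⟨x, hx, hxd⟩ := hpd
    rw [pk_iff]
    intro Rs hR
    have hx' : x ∈ Rs.map BK.LT.shape := by
      rw [hR, List.mem_reverse]
      exact List.mem_append_left _ hx
    obtain ⟨L, hL, rfl⟩ := List.mem_map.1 hx'
    exact dead_zero hφ hL hxd

lemma dead_of_mem {J : Set BT} {y : BT} (hy : y ∈ J) : ¬ Alive K J y := by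
  rintro ⟨φ, h1, h2⟩
  apply h2
  rw [pk_one]
  intro R hR
  have := h1 R (by rw [hR]; exact hy) [] []
  simpa using this

open Classical in
lemma pen3_core {I J : Set BT} (hIJ : I ⊆ J) {q : ℕ} (hq : 1 ≤ q) (hI : ∀ S ∈ I, q < S.lv)
    {hs : List BT} (hal : ∀ h ∈ hs, Alive K I h) {X X' : BT}
    (h : Hyp K I hs X X') (f g : List ℕ → K) (hf : ∀ w, w.length ≠ q → f w = 0)
    (hg : IK g J)
    (hX' : ∀ p' ∈ paths X', ∃ p z, p' = p ++ [z] ∧ z ∈ J ∧ z.lv = q ∧
      (PK f [z] ∨ PK g (p ++ hs.filter (fun x => decide (Alive K J x)))))
    {p : List BT} {y : BT} (hp : p ++ [y] ∈ paths X) (hyJ : y ∈ J) (hy : ¬ PK f [y]) :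
    PK g (p ++ hs.filter (fun x => decide (Alive K J x))) := by
  by_cases hpd : ∀ x ∈ p, Alive K J x
  · rw [pk_iff]
    by_contra hcon
    push Not at hcon
    obtain ⟨As, hAs, hv⟩ := hcon
    set D := (hs.filter (fun h => decide (¬ Alive K J h))) with hD
    have hfI : IK f I := by
      intro R hR u v
      rw [val_congr R (χ := fun _ => 0), val_zero]
      intro w hw
      apply hf
      rw [List.length_append, List.length_append, hw.length_eq, length_leaves]
      have := hI _ hR
      omega
    obtain ⟨F, F1, F2, ⟨Ss, hSs, hw⟩, F3⟩ := bins hq hfI hf y hy D.reverse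
      (fun x hx => hal x (List.mem_of_mem_filter (List.mem_reverse.1 hx)))
    have hsumD : (D.reverse.map BT.lv).sum = (D.map BT.lv).sum := by
      rw [List.map_reverse, List.sum_reverse]
    rw [hsumD] at F2
    have key := h (mix g F) (ik_mix (ik_mono hIJ hg) F1) ?_ _ hp
    · rw [pk_iff] at key
      obtain ⟨Ts, hT, hval⟩ := mix_build (J := J) g F (p ++ [y] ++ hs).reverse As Ss
        (by
          rw [hAs, List.filter_reverse, List.filter_append, List.filter_append]
          have e1 : p.filter (fun h => decide (Alive K J h)) = p := by
            rw [List.filter_eq_self]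
            intro x hx
            simpa using hpd x hx
          have e2 : [y].filter (fun h => decide (Alive K J h)) = [] := by
            rw [List.filter_cons, if_neg (by simpa using dead_of_mem hyJ), List.filter_nil]
          rw [e1, e2, List.append_nil])
        (by
          rw [hSs, List.filter_reverse, List.filter_append, List.filter_append, ← hD]
          have e1 : p.filter (fun h => decide (¬ Alive K J h)) = [] := by
            rw [List.filter_eq_nil_iff]
            intro x hx
            simpa using hpd x hx
          have e2 : [y].filter (fun h => decide (¬ Alive K J h)) = [y] := by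
            rw [List.filter_cons, if_pos (by simpa using dead_of_mem hyJ), List.filter_nil]
          rw [e1, e2, List.nil_append, List.reverse_append, List.reverse_singleton])
      have := key Ts hT
      rw [hval] at this
      exact mul_ne_zero hv hw this
    · intro p'' hp''
      obtain ⟨p', z, rfl, hzJ, hzq, hz⟩ := hX' p'' hp''
      rw [pk_iff]
      intro Ls hLs
      by_contra hne
      have hzd : [z].filter (fun h => decide (¬ Alive K J h)) = [z] := by
        rw [List.filter_cons, if_pos (by simpa using dead_of_mem hzJ), List.filter_nil]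
      have hza : [z].filter (fun h => decide (Alive K J h)) = [] := by
        rw [List.filter_cons, if_neg (by simpa using dead_of_mem hzJ), List.filter_nil]
      have hsum : (((p' ++ [z] ++ hs).reverse.filter (fun h => decide (¬ Alive K J h))).map BT.lv).sum =
          ((p'.filter (fun h => decide (¬ Alive K J h))).map BT.lv).sum + (q + (D.map BT.lv).sum) := by
        rw [List.filter_reverse, List.map_reverse, List.sum_reverse, List.filter_append,
          List.filter_append, hzd, List.map_append, List.map_append, List.sum_append, List.sum_append,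
          List.map_singleton, List.sum_singleton, hzq, add_assoc]
      obtain ⟨h1, ⟨Bs, hB, hBv⟩, ⟨Cs, hC, hCv⟩⟩ := mix_core hg F2 hLs hne (by rw [hsum]; omega)
      have hp0 : p'.filter (fun h => decide (¬ Alive K J h)) = [] := by
        rw [hsum] at h1
        match hq : p'.filter (fun h => decide (¬ Alive K J h)), h1 with
        | [], _ => rfl
        | x :: xs, h1 =>
          rw [List.map_cons, List.sum_cons] at h1
          have := x.lv_pos
          omega
      have hp1 : ∀ x ∈ p', Alive K J x := by
        intro x hx
        by_contra hxd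
        have : x ∈ p'.filter (fun h => decide (¬ Alive K J h)) :=
          List.mem_filter.2 ⟨hx, by simpa using hxd⟩
        rw [hp0] at this
        simp at this
      have hCs : Cs.map BK.LT.shape = D.reverse ++ [z] := by
        rw [hC, List.filter_reverse, List.filter_append, List.filter_append, hp0, hzd, ← hD,
          List.nil_append, List.reverse_append, List.reverse_singleton]
      obtain ⟨_, h5⟩ := F3 Cs hCv
      have hCl : Cs.length = D.reverse.length + 1 := by
        have := congrArg List.length hCs
        rw [List.length_map, List.length_append, List.length_singleton] at this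
        exact this
      have h6 := h5 hCl (fun h => decide (¬ PK f [h])) (fun h => by simp)
      rw [hCs, List.filter_append, List.length_append] at h6
      have hzf : ¬ PK f [z] := by
        intro hzf
        have : [z].filter (fun h => decide (¬ PK f [h])) = [] := by
          rw [List.filter_cons, if_neg (by simpa using hzf), List.filter_nil]
        rw [this] at h6
        simp at h6
      rcases hz with hz | hz
      · exact hzf hz
      · rw [pk_iff] at hz
        apply hBv
        apply hz
        rw [hB, List.filter_reverse, List.filter_append, List.filter_append, hza, List.append_nil]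
        congr 2
        rw [List.filter_eq_self]
        intro x hx
        simpa using hp1 x hx
  · push Not at hpd
    obtain ⟨x, hx, hxd⟩ := hpd
    rw [pk_iff]
    intro Rs hR
    have hx' : x ∈ Rs.map BK.LT.shape := by
      rw [hR, List.mem_reverse]
      exact List.mem_append_left _ hx
    obtain ⟨L, hL, rfl⟩ := List.mem_map.1 hx'
    exact dead_zero hg hL hxd

open Classical in
/-- PEN-3: all children of size `q`, `f` a functional on words of length `q`, `g` kills `J` -/
theorem pen3 {I J : Set BT} (hIJ : I ⊆ J) {q : ℕ} (hI : ∀ S ∈ I, q < S.lv) (hJ : ∀ S ∈ J, q ≤ S.lv)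
    {hs : List BT} (hal : ∀ h ∈ hs, Alive K I h) {a b a' b' : BT}
    (ha : a.lv = q) (hb : b.lv = q) (ha' : a'.lv = q) (hb' : b'.lv = q)
    (hJa : a ∈ J) (hJb : b ∈ J) (hJa' : a' ∈ J) (hJb' : b' ∈ J)
    (h : Hyp K I hs (BT.node a b) (BT.node a' b')) (f g : List ℕ → K) (hf : ∀ w, w.length ≠ q → f w = 0)
    (hg : IK g J)
    (h1 : PK f [b'] ∨ ∀ p ∈ paths a', PK g (p ++ hs.filter (fun x => decide (Alive K J x))))
    (h2 : PK f [a'] ∨ ∀ p ∈ paths b', PK g (p ++ hs.filter (fun x => decide (Alive K J x)))) :
    (PK f [b] ∨ ∀ p ∈ paths a, PK g (p ++ hs.filter (fun x => decide (Alive K J x)))) ∧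
    (PK f [a] ∨ ∀ p ∈ paths b, PK g (p ++ hs.filter (fun x => decide (Alive K J x)))) := by
  have hq : 1 ≤ q := by rw [← ha]; exact a.lv_pos
  have hX' : ∀ p' ∈ paths (BT.node a' b'), ∃ p z, p' = p ++ [z] ∧ z ∈ J ∧ z.lv = q ∧
      (PK f [z] ∨ PK g (p ++ hs.filter (fun x => decide (Alive K J x)))) := by
    intro p' hp'
    rw [paths, List.mem_append, List.mem_map, List.mem_map] at hp'
    rcases hp' with ⟨p, hp, rfl⟩ | ⟨p, hp, rfl⟩
    · exact ⟨p, b', rfl, hJb', hb', h1.imp id (fun h => h p hp)⟩
    · exact ⟨p, a', rfl, hJa', ha', h2.imp id (fun h => h p hp)⟩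
  constructor
  · by_cases hfb : PK f [b]
    · exact Or.inl hfb
    · refine Or.inr (fun p hp => pen3_core hIJ hq hI hal h f g hf hg hX' (y := b) ?_ hJb hfb)
      rw [paths, List.mem_append, List.mem_map]
      exact Or.inl ⟨p, hp, rfl⟩
  · by_cases hfa : PK f [a]
    · exact Or.inl hfa
    · refine Or.inr (fun p hp => pen3_core hIJ hq hI hal h f g hf hg hX' (y := a) ?_ hJa hfa)
      rw [paths, List.mem_append, List.mem_map, List.mem_map]
      exact Or.inr ⟨p, hp, rfl⟩

end Z4

end Pool.Agent.BC78.BZ
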