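import Pool.Agent.BC78.BZ.Z1
import Pool.Agent.BC78.BK.R2

/-! Marking and unmarking a letter; from inclusions of monomial subspaces to functionals. -/

namespace Pool.Agent.BC78.BZ

open Pool.Agent.H25 Pool.Agent.BC78.BK

section
variable {K : Type*} [Field K]

open Classical in
/-- the functional on words with one marked letter, which has to be the last one -/
noncomputable def mkf (ψ : List ℕ → K) (w : List (Option ℕ)) : K :=
  if w.count none = 1 ∧ w.getLast? = some none then ψ (w.filterMap id) else 0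

/-- a labelled tree with one marked letter and its path -/
def MP (K : Type*) [Field K] (L : BK.LT (Option ℕ)) (Rs : List (BK.LT ℕ)) : Prop :=
  L.leaves.count none = 1 ∧ ∃ c : K, (c = 1 ∨ c = -1) ∧ ∀ ψ : List ℕ → K, L.val (mkf ψ) = c * pval Rs ψ

theorem filterMap_some (w : List ℕ) : (w.map some).filterMap id = w := by
  rw [List.filterMap_map]
  simp

theorem count_none_some (w : List ℕ) : (w.map some).count none = 0 := by
  rw [List.count_eq_zero]
  simp

theorem mp_leaf : MP K (BK.LT.leaf none) [] := by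
  refine ⟨by simp [BK.LT.leaves], 1, Or.inl rfl, fun ψ => ?_⟩
  simp [BK.LT.val, mkf, pval]

theorem mkf_append (ψ : List ℕ → K) (q : List ℕ) (p : List (Option ℕ)) (hp : p ≠ []) :
    mkf ψ (q.map some ++ p) = mkf (fun w => ψ (q ++ w)) p := by
  unfold mkf
  rw [List.count_append, count_none_some, zero_add, List.filterMap_append, filterMap_some,
    List.getLast?_append_of_ne_nil _ hp]

theorem mkf_last (ψ : List ℕ → K) (q : List ℕ) (p : List (Option ℕ)) (hq : q ≠ []) :
    mkf ψ (p ++ q.map some) = 0 := by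
  unfold mkf
  rw [if_neg]
  rintro ⟨-, h⟩
  have hq' : q.map some ≠ [] := by simpa using hq
  rw [List.getLast?_append_of_ne_nil _ hq', List.getLast?_map] at h
  cases h' : q.getLast? with
  | none => rw [h'] at h; simp at h
  | some x => rw [h'] at h; simp at h

theorem leaves_ne_nil {α : Type} (L : BK.LT α) : L.leaves ≠ [] := by
  intro h
  have := length_leaves L
  rw [h] at this
  have := BT.lv_pos L.shape
  simp at *
  omega

theorem ne_nil_of_perm {α : Type} {L : BK.LT α} {w : List α} (h : w.Perm L.leaves) : w ≠ [] := by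
  rintro rfl
  exact leaves_ne_nil L (List.nil_perm.1 h)

theorem mp_val_right {L : BK.LT (Option ℕ)} (R : BK.LT ℕ) (ψ : List ℕ → K) :
    (R.map some).val (fun q => L.val (fun p => mkf ψ (q ++ p))) =
      R.val (fun q => L.val (mkf (fun w => ψ (q ++ w)))) := by
  rw [val_map]
  refine congrArg R.val (funext fun q => ?_)
  refine val_congr L (fun p hp => ?_)
  exact mkf_append ψ q p (ne_nil_of_perm hp)

theorem mp_val_left {L : BK.LT (Option ℕ)} (R : BK.LT ℕ) (ψ : List ℕ → K) :
    L.val (fun p => (R.map some).val (fun q => mkf ψ (p ++ q))) = 0 := by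
  rw [← val_zero (K := K) L]
  refine congrArg L.val (funext fun p => ?_)
  rw [val_map]
  rw [← val_zero (K := K) R]
  exact val_congr R (fun q hq => mkf_last ψ q p (ne_nil_of_perm hq))

theorem mp_node_left {L : BK.LT (Option ℕ)} {Rs : List (BK.LT ℕ)} (h : MP K L Rs) (R : BK.LT ℕ) :
    MP K (BK.LT.node L (R.map some)) (Rs ++ [R]) := by
  obtain ⟨h0, c, hc, h1⟩ := h
  refine ⟨?_, -c, ?_, fun ψ => ?_⟩
  · rw [BK.LT.leaves, List.count_append, h0, leaves_map, count_none_some]
  · rcases hc with rfl | rfl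
    · right; rfl
    · left; ring
  · rw [BK.LT.val, mp_val_left, mp_val_right, pval_append]
    simp only [h1, val_mul_left, pval, List.nil_append]
    ring

theorem mp_node_right {L : BK.LT (Option ℕ)} {Rs : List (BK.LT ℕ)} (h : MP K L Rs) (R : BK.LT ℕ) :
    MP K (BK.LT.node (R.map some) L) (Rs ++ [R]) := by
  obtain ⟨h0, c, hc, h1⟩ := h
  refine ⟨?_, c, hc, fun ψ => ?_⟩
  · rw [BK.LT.leaves, List.count_append, h0, leaves_map, count_none_some]
  · rw [BK.LT.val, mp_val_left, mp_val_right, pval_append]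
    simp only [h1, val_mul_left, pval, List.nil_append]
    ring

/-- every product over a path is a marked monomial -/
theorem exists_mp {X : BT} : ∀ p ∈ paths X, ∀ Rs : List (BK.LT ℕ), Rs.map BK.LT.shape = p →
    ∃ L : BK.LT (Option ℕ), L.shape = X ∧ MP K L Rs := by
  induction X with
  | leaf =>
    intro p hp Rs hRs
    simp only [paths, List.mem_singleton] at hp
    subst hp
    rw [List.map_eq_nil_iff] at hRs
    subst hRs
    exact ⟨BK.LT.leaf none, rfl, mp_leaf⟩
  | node a b iha ihb =>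
    intro p hp Rs hRs
    simp only [paths, List.mem_append, List.mem_map] at hp
    rcases hp with ⟨p, hp, rfl⟩ | ⟨p, hp, rfl⟩
    · obtain ⟨As, Bs, rfl, hA, hB⟩ := List.map_eq_append_iff.1 hRs
      obtain ⟨R, Cs, rfl, hR, hC⟩ := List.map_eq_cons_iff.1 hB
      rw [List.map_eq_nil_iff] at hC
      subst hC
      obtain ⟨L, hL, hm⟩ := iha p hp As hA
      exact ⟨BK.LT.node L (R.map some), by rw [BK.LT.shape, hL, shape_map, hR], mp_node_left hm R⟩
    · obtain ⟨As, Bs, rfl, hA, hB⟩ := List.map_eq_append_iff.1 hRs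
      obtain ⟨R, Cs, rfl, hR, hC⟩ := List.map_eq_cons_iff.1 hB
      rw [List.map_eq_nil_iff] at hC
      subst hC
      obtain ⟨L, hL, hm⟩ := ihb p hp As hA
      exact ⟨BK.LT.node (R.map some) L, by rw [BK.LT.shape, hL, shape_map, hR], mp_node_right hm R⟩

theorem exists_unmap : ∀ M : BK.LT (Option ℕ), M.leaves.count none = 0 → ∃ R : BK.LT ℕ, M = R.map some
  | BK.LT.leaf none, h => by simp [BK.LT.leaves] at h
  | BK.LT.leaf (some x), _ => ⟨BK.LT.leaf x, rfl⟩
  | BK.LT.node a b, h => by
    rw [BK.LT.leaves, List.count_append] at h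
    obtain ⟨R, hR⟩ := exists_unmap a (by omega)
    obtain ⟨S, hS⟩ := exists_unmap b (by omega)
    exact ⟨BK.LT.node R S, by rw [BK.LT.map, hR, hS]⟩

/-- every marked monomial is a product over a path -/
theorem exists_path_of_mp : ∀ L : BK.LT (Option ℕ), L.leaves.count none = 1 →
    ∃ Rs : List (BK.LT ℕ), Rs.map BK.LT.shape ∈ paths L.shape ∧ MP K L Rs
  | BK.LT.leaf none, _ => ⟨[], by simp [BK.LT.shape, paths], mp_leaf⟩
  | BK.LT.leaf (some x), h => by simp [BK.LT.leaves] at h
  | BK.LT.node a b, h => by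
    rw [BK.LT.leaves, List.count_append] at h
    rcases Nat.lt_or_ge (a.leaves.count none) 1 with h1 | h1
    · obtain ⟨R, rfl⟩ := exists_unmap a (by omega)
      obtain ⟨Rs, hp, hm⟩ := exists_path_of_mp b (by omega)
      refine ⟨Rs ++ [R], ?_, mp_node_right hm R⟩
      rw [BK.LT.shape, paths, List.mem_append, List.map_append, shape_map]
      exact Or.inr (List.mem_map.2 ⟨_, hp, rfl⟩)
    · obtain ⟨R, rfl⟩ := exists_unmap b (by omega)
      obtain ⟨Rs, hp, hm⟩ := exists_path_of_mp a (by omega)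
      refine ⟨Rs ++ [R], ?_, mp_node_left hm R⟩
      rw [BK.LT.shape, paths, List.mem_append, List.map_append, shape_map]
      exact Or.inl (List.mem_map.2 ⟨_, hp, rfl⟩)

theorem pk_mkf_iff {X : BT} (φ : List ℕ → K) : PK (mkf φ) [X] ↔ ∀ p ∈ paths X, PK φ p := by
  constructor
  · intro h p hp Rs hRs
    obtain ⟨L, hL, -, c, hc, e⟩ := exists_mp (K := K) p hp Rs hRs
    have h1 := h [L] (by rw [List.map_cons, List.map_nil, hL])
    rw [pval_singleton, e] at h1
    rcases hc with rfl | rfl
    · simpa using h1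
    · simpa using h1
  · intro h Rs hRs
    obtain ⟨L, Ls, rfl, hL, hLs⟩ := List.map_eq_cons_iff.1 hRs
    rw [List.map_eq_nil_iff] at hLs
    subst hLs
    rw [pval_singleton]
    by_cases h0 : L.leaves.count none = 1
    · obtain ⟨Rs, hp, -, c, -, e⟩ := exists_path_of_mp (K := K) L h0
      rw [e, h _ (hL ▸ hp) Rs rfl, mul_zero]
    · rw [← val_zero (K := K) L]
      refine val_congr L (fun w hw => ?_)
      rw [mkf, if_neg]
      rintro ⟨h1, -⟩
      rw [hw.count_eq] at h1
      exact h0 h1

/-- marking a letter: `V_X ⊆ V_Y` gives the path statement -/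
theorem hyp_of_sub {X Y : BT} (h : Sub K X Y) : Hyp K ∅ [] X Y := by
  intro φ _ h2 p hp
  rw [List.append_nil]
  simp only [List.append_nil] at h2
  exact (pk_mkf_iff φ).1 (sub_any h _ ((pk_mkf_iff φ).2 h2)) p hp

/-- left nested commutators with the letter `z` -/
def adv (z : ℕ) : List ℕ → (List ℕ → K) → K
  | [], φ => φ [z]
  | x :: w, φ => adv z w (fun p => φ (x :: p) - φ (p ++ [x]))

theorem adv_sub (z : ℕ) (w : List ℕ) (φ χ : List ℕ → K) :
    adv z w (fun p => φ p - χ p) = adv z w φ - adv z w χ := by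
  induction w generalizing φ χ with
  | nil => rfl
  | cons x w ih =>
    simp only [adv]
    rw [← ih]
    refine congrArg (adv z w) (funext fun p => ?_)
    ring

theorem adv_lie (z : ℕ) (R : BK.LT ℕ) (w : List ℕ) (φ : List ℕ → K) :
    R.val (fun q => adv z (q ++ w) φ) = adv z w (fun p => R.val (fun q => φ (q ++ p) - φ (p ++ q))) := by
  induction R generalizing w φ with
  | leaf x => simp only [BK.LT.val, List.cons_append, List.nil_append, adv]
  | node a b iha ihb =>
    have e1 : a.val (fun p => b.val (fun q => adv z (p ++ q ++ w) φ)) =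
        adv z w (fun s => b.val (fun q => a.val (fun p => φ (p ++ (q ++ s)) - φ (q ++ s ++ p)) -
          a.val (fun p => φ (p ++ (s ++ q)) - φ (s ++ q ++ p)))) := by
      rw [val_val]
      simp only [List.append_assoc, iha, ihb]
    have e2 : b.val (fun q => a.val (fun p => adv z (q ++ p ++ w) φ)) =
        adv z w (fun s => a.val (fun p => b.val (fun q => φ (q ++ (p ++ s)) - φ (p ++ s ++ q)) -
          b.val (fun q => φ (q ++ (s ++ p)) - φ (s ++ p ++ q)))) := by
      rw [val_val]
      simp only [List.append_assoc, iha, ihb]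
    rw [BK.LT.val, e1, e2, ← adv_sub]
    refine congrArg (adv z w) (funext fun s => ?_)
    simp only [BK.LT.val, val_sub, List.append_assoc]
    rw [val_val b a (fun q p => φ (p ++ (q ++ s))), val_val b a (fun q p => φ (q ++ (s ++ p))),
      val_val b a (fun q p => φ (p ++ (s ++ q)))]
    try rw [val_val b a (fun q p => φ (q ++ (p ++ s)))]
    ring

/-- pointed labelled trees: a marked leaf labelled `z` and its path -/
theorem adv_node_left (z : ℕ) {L : BK.LT ℕ} {Rs : List (BK.LT ℕ)} {c : K}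
    (h : ∀ φ : List ℕ → K, L.val φ = c * pval Rs (fun w => adv z w φ)) (R : BK.LT ℕ) (φ : List ℕ → K) :
    (BK.LT.node L R).val φ = -c * pval (Rs ++ [R]) (fun w => adv z w φ) := by
  rw [pval_append, pval_singleton]
  rw [← pval_val Rs R (fun q p => adv z (p ++ q) φ)]
  simp only [adv_lie]
  have e2 := h (fun p => R.val (fun q => φ (q ++ p) - φ (p ++ q)))
  rw [neg_mul, ← e2, BK.LT.val]
  simp only [val_sub]
  rw [val_val R L]
  ring

theorem adv_node_right (z : ℕ) {L : BK.LT ℕ} {Rs : List (BK.LT ℕ)} {c : K}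
    (h : ∀ φ : List ℕ → K, L.val φ = c * pval Rs (fun w => adv z w φ)) (R : BK.LT ℕ) (φ : List ℕ → K) :
    (BK.LT.node R L).val φ = c * pval (Rs ++ [R]) (fun w => adv z w φ) := by
  have h1 := adv_node_left z h R φ
  rw [neg_mul] at h1
  rw [← neg_eq_iff_eq_neg.2 h1, BK.LT.val, BK.LT.val]
  ring

/-- every labelled tree is a product over a path applied to a letter -/
theorem exists_path_adv : ∀ L : BK.LT ℕ, ∃ (z : ℕ) (Rs : List (BK.LT ℕ)),
    Rs.map BK.LT.shape ∈ paths L.shape ∧ ∃ c : K, ∀ φ : List ℕ → K, L.val φ = c * pval Rs (fun w => adv z w φ)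
  | BK.LT.leaf x => ⟨x, [], by simp [BK.LT.shape, paths], 1, fun φ => by simp [BK.LT.val, pval, adv]⟩
  | BK.LT.node a b => by
    obtain ⟨z, Rs, hp, c, h⟩ := exists_path_adv a
    refine ⟨z, Rs ++ [b], ?_, -c, adv_node_left z h b⟩
    rw [BK.LT.shape, paths, List.mem_append, List.map_append]
    exact Or.inl (List.mem_map.2 ⟨_, hp, rfl⟩)

/-- every product over a path applied to a letter is a labelled tree -/
theorem exists_adv_path (z : ℕ) {X : BT} : ∀ p ∈ paths X, ∀ Rs : List (BK.LT ℕ), Rs.map BK.LT.shape = p →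
    ∃ L : BK.LT ℕ, L.shape = X ∧ ∃ c : K, (c = 1 ∨ c = -1) ∧ ∀ φ : List ℕ → K,
      L.val φ = c * pval Rs (fun w => adv z w φ) := by
  induction X with
  | leaf =>
    intro p hp Rs hRs
    simp only [paths, List.mem_singleton] at hp
    subst hp
    rw [List.map_eq_nil_iff] at hRs
    subst hRs
    exact ⟨BK.LT.leaf z, rfl, 1, Or.inl rfl, fun φ => by simp [BK.LT.val, pval, adv]⟩
  | node a b iha ihb =>
    intro p hp Rs hRs
    simp only [paths, List.mem_append, List.mem_map] at hp
    rcases hp with ⟨p, hp, rfl⟩ | ⟨p, hp, rfl⟩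
    · obtain ⟨As, Bs, rfl, hA, hB⟩ := List.map_eq_append_iff.1 hRs
      obtain ⟨R, Cs, rfl, hR, hC⟩ := List.map_eq_cons_iff.1 hB
      rw [List.map_eq_nil_iff] at hC
      subst hC
      obtain ⟨L, hL, c, hc, h⟩ := iha p hp As hA
      refine ⟨BK.LT.node L R, by rw [BK.LT.shape, hL, hR], -c, ?_, adv_node_left z h R⟩
      rcases hc with rfl | rfl
      · right; rfl
      · left; ring
    · obtain ⟨As, Bs, rfl, hA, hB⟩ := List.map_eq_append_iff.1 hRs
      obtain ⟨R, Cs, rfl, hR, hC⟩ := List.map_eq_cons_iff.1 hB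
      rw [List.map_eq_nil_iff] at hC
      subst hC
      obtain ⟨L, hL, c, hc, h⟩ := ihb p hp As hA
      exact ⟨BK.LT.node R L, by rw [BK.LT.shape, hL, hR], c, hc, adv_node_right z h R⟩

/-- unmarking -/
theorem sub_of_hyp {X Y : BT} (h : Hyp K ∅ [] X Y) : Sub K X Y := by
  intro φ hφ Rs hRs
  obtain ⟨L, Ls, rfl, hL, hLs⟩ := List.map_eq_cons_iff.1 hRs
  rw [List.map_eq_nil_iff] at hLs
  subst hLs
  rw [pval_singleton]
  obtain ⟨z, Rs, hp, c, e⟩ := exists_path_adv (K := K) L
  rw [e]
  have h1 := h (fun w => adv z w φ) (fun R hR => absurd hR (Set.notMem_empty _)) (fun p hp Rs hRs => by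
    rw [List.append_nil] at hRs
    obtain ⟨M, hM, c', hc', e'⟩ := exists_adv_path (K := K) z p hp Rs hRs
    have h2 := hφ [M] (by rw [List.map_cons, List.map_nil, hM])
    rw [pval_singleton, e'] at h2
    rcases hc' with rfl | rfl
    · simpa using h2
    · simpa using h2) _ (hL ▸ hp)
  rw [List.append_nil] at h1
  rw [h1 Rs rfl, mul_zero]

/-- letters as numbers -/
def dl : Lt → ℕ
  | Lt.mark i => i
  | Lt.bl _ _ => 0

theorem sub_of_X0 {s t : BT} (h : X0 K s ≤ X0 K t) : Sub K s t := by
  intro φ hφ Rs hRs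
  obtain ⟨L, Ls, rfl, hL, hLs⟩ := List.map_eq_cons_iff.1 hRs
  rw [List.map_eq_nil_iff] at hLs
  subst hLs
  rw [pval_singleton]
  by_contra hne
  have e1 : (L.map Lt.mark).val (fun w => φ (w.map dl)) = L.val φ := by
    rw [val_map]
    refine congrArg L.val (funext fun w => ?_)
    rw [List.map_map]
    have : (dl ∘ Lt.mark) = id := rfl
    rw [this, List.map_id]
  obtain ⟨M, hM, hv⟩ := bridge h (fun w => φ (w.map dl)) (L.map Lt.mark) (by rw [shape_map, hL])
    (by rw [e1]; exact hne)
  apply hv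
  rw [← val_map dl M φ, ← pval_singleton]
  exact hφ _ (by rw [List.map_cons, List.map_nil, shape_map, hM])

end

end Pool.Agent.BC78.BZ
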