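import Pool.Agent.BC78.BZ.Z1
import Pool.Agent.BC78.BZ.Z2
import Pool.Agent.BC78.BZ.Z5
import Pool.Agent.BC78.BZ.Pen2s
import Pool.Agent.BC78.BZ.Tie

/-! Row Z6, part 1: the test lemma, steps 0 and 1. -/

namespace Pool.Agent.BC78.BZ

open Pool.Agent.H25 Pool.Agent.BC78.BK

section
variable {K : Type*} [Field K]

lemma sub_refl (X : BT) : Sub K X X := fun _ h => h

lemma sub_trans {X Y Z : BT} (h : Sub K X Y) (h' : Sub K Y Z) : Sub K X Z := fun φ hφ => h φ (h' φ hφ)

lemma big_iso {r : ℕ} {B : Option BT} {S T : BT} (h : BT.Iso S T) (hb : big K r B S) : big K r B T := by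
  have hl := h.lv_eq
  rcases hb with hb | ⟨hb, b, hB, hs⟩
  · exact Or.inl (hl ▸ hb)
  · exact Or.inr ⟨hl ▸ hb, b, hB, sub_trans (sub_of_iso h.symm) hs⟩

lemma cb_iso {r : ℕ} {B : Option BT} {S T : BT} (h : BT.Iso S T) : cb K r B S = cb K r B T := by
  induction h with
  | leaf => rfl
  | @node a b c d h1 h2 ih1 ih2 =>
    have hb : big K r B (BT.node a b) ↔ big K r B (BT.node c d) :=
      ⟨big_iso (BT.Iso.node h1 h2), big_iso (BT.Iso.node h1 h2).symm⟩
    rw [cb, cb, ih1, ih2]
    by_cases hbb : big K r B (BT.node a b)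
    · rw [if_pos hbb, if_pos (hb.1 hbb)]
    · rw [if_neg hbb, if_neg (fun h => hbb (hb.2 h))]
  | @swap a b c d h1 h2 ih1 ih2 =>
    have hb : big K r B (BT.node a b) ↔ big K r B (BT.node c d) :=
      ⟨big_iso (BT.Iso.swap h1 h2), big_iso (BT.Iso.swap h1 h2).symm⟩
    rw [cb, cb, ih1, ih2, add_comm (cb K r B d) (cb K r B c)]
    by_cases hbb : big K r B (BT.node a b)
    · rw [if_pos hbb, if_pos (hb.1 hbb)]
    · rw [if_neg hbb, if_neg (fun h => hbb (hb.2 h))]

lemma iso_swap (a b : BT) : BT.Iso (BT.node a b) (BT.node b a) := BT.Iso.swap (BT.Iso.refl a) (BT.Iso.refl b)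

lemma iso_swap_left {a b X : BT} (h : BT.Iso (BT.node b a) X) : BT.Iso (BT.node a b) X := by
  cases h with
  | node h1 h2 => exact BT.Iso.swap h2 h1
  | swap h1 h2 => exact BT.Iso.node h2 h1

lemma mem_paths_node {a b : BT} {p : List BT} : p ∈ paths (BT.node a b) ↔
    (∃ p1 ∈ paths a, p1 ++ [b] = p) ∨ (∃ p2 ∈ paths b, p2 ++ [a] = p) := by
  simp [paths]

lemma mem_paths_swap {a b : BT} {p : List BT} :
    p ∈ paths (BT.node a b) ↔ p ∈ paths (BT.node b a) := by
  rw [mem_paths_node, mem_paths_node, or_comm]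

lemma Hyp.swapl {I : Set BT} {hs : List BT} {a b Z : BT} (h : Hyp K I hs (BT.node a b) Z) :
    Hyp K I hs (BT.node b a) Z := fun φ h1 h2 p hp => h φ h1 h2 p (mem_paths_swap.1 hp)

lemma Hyp.swapr {I : Set BT} {hs : List BT} {a b Z : BT} (h : Hyp K I hs Z (BT.node a b)) :
    Hyp K I hs Z (BT.node b a) := fun φ h1 h2 p hp => h φ h1 (fun p' hp' => h2 p' (mem_paths_swap.1 hp')) p hp

lemma cb_le_need {r : ℕ} {B : Option BT} {l : List BT} {g : BT} (h : g ∈ l) :
    cb K r B g ≤ need K r B l := by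
  rw [need]
  exact List.single_le_sum (by simp) _ (List.mem_map.2 ⟨g, h, rfl⟩)

lemma cent_append (r : ℕ) (B : Option BT) : ∀ (l m : List BT) (n : ℕ), need K r B l ≤ n →
    cent K r B n (l ++ m) = cent K r B n l + cent K r B (n - need K r B l) m
  | [], m, n, _ => by simp [cent, need]
  | g :: l, m, n, h => by
    have e : need K r B (g :: l) = cb K r B g + need K r B l := by simp [need]
    rw [e] at h
    have h1 : cb K r B g ≤ n := by omega
    rw [List.cons_append, cent, cent, if_pos h1, if_pos h1, cent_append r B l m _ (by omega), e,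
      Nat.sub_sub]
    ring

lemma cent_zero (r : ℕ) (B : Option BT) : ∀ (l : List BT) (n : ℕ), need K r B l < n →
    cent K r B n l = 0
  | [], n, _ => by simp [cent]
  | g :: l, n, h => by
    have e : need K r B (g :: l) = cb K r B g + need K r B l := by simp [need]
    rw [e] at h
    rw [cent, if_neg (by omega), if_pos (by omega), cent_zero r B l _ (by omega)]

lemma cb_le_lv (r : ℕ) (B : Option BT) : ∀ S : BT, cb K r B S ≤ S.lv
  | BT.leaf => by rw [cb, BT.lv]; split_ifs <;> omega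
  | BT.node a b => by
    have h1 := cb_le_lv r B a
    have h2 := cb_le_lv r B b
    have h3 := BT.lv_pos a
    rw [cb, BT.lv]
    split_ifs <;> omega

/-- the level test for products of total size less than `N` -/
def LTst (K : Type*) [Field K] (N : ℕ) : Prop :=
  ∀ (r : ℕ) (B : Option BT) (p : ℕ) (gs : List BT), 1 ≤ r → 1 ≤ p → p ≤ N →
    (gs.map BT.lv).sum + 1 ≤ N → (∀ g ∈ gs, cb K r B g < p) →
    ∃ φ : List ℕ → K, IK φ {S | p ≤ cb K r B S} ∧ ¬ PK φ gs ∧
      ∀ gs' : List BT, (need K r B gs < need K r B gs' ∨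
        (need K r B gs = need K r B gs' ∧ cent K r B (p - 1) gs < cent K r B (p - 1) gs')) → PK φ gs'

lemma filter_sum_le (P : BT → Bool) : ∀ l : List BT,
    ((l.filter P).map BT.lv).sum ≤ (l.map BT.lv).sum
  | [] => by simp
  | x :: l => by
    have := filter_sum_le P l
    rw [List.filter_cons]
    split_ifs
    · simp only [List.map_cons, List.sum_cons]; omega
    · simp only [List.map_cons, List.sum_cons]; omega

/-- the test functional -/
theorem test_core {N : ℕ} (hL : LTst K N) {r : ℕ} {B : Option BT} (hr : 1 ≤ r) {I : Set BT}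
    {hs : List BT} (hal : ∀ h ∈ hs, Alive K I h) {p : ℕ} (hp : 1 ≤ p) (hpN : p ≤ N)
    (hI : ∀ S ∈ I, p ≤ cb K r B S) (l0 : List BT)
    (hN : (l0.map BT.lv).sum + 1 + (hs.map BT.lv).sum ≤ N) (hl0 : ∀ g ∈ l0, cb K r B g < p) :
    ∃ Φ : List ℕ → K, IK Φ I ∧ ¬ PK Φ (l0 ++ hs) ∧ ∀ l : List BT,
      (need K r B l0 < need K r B l ∨ (need K r B l0 = p - 1 ∧ need K r B l = p - 1 ∧
        cent K r B (p - 1) l0 < cent K r B (p - 1) l)) → PK Φ (l ++ hs) := by
  classical
  set J : Set BT := {S | p ≤ cb K r B S} with hJ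
  have hIJ : I ⊆ J := fun S hS => hI S hS
  have hgs : ∀ g ∈ l0 ++ hs.filter (fun x => decide (Alive K J x)), cb K r B g < p := by
    intro g hg
    rcases List.mem_append.1 hg with hg | hg
    · exact hl0 g hg
    · have hA : Alive K J g := by simpa using (List.mem_filter.1 hg).2
      by_contra hcon
      push Not at hcon
      exact dead_of_mem (K := K) (J := J) (y := g) hcon hA
  have hsz := filter_sum_le (fun x => decide (Alive K J x)) hs
  obtain ⟨φ, h1, h2, h3⟩ := hL r B p (l0 ++ hs.filter (fun x => decide (Alive K J x))) hr hp hpN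
    (by rw [List.map_append, List.sum_append]; omega) hgs
  by_contra hcon
  push Not at hcon
  apply h2
  refine pen2s (K := K) hIJ hal (P := {l0}) (P' := {l | need K r B l0 < need K r B l ∨
    (need K r B l0 = p - 1 ∧ need K r B l = p - 1 ∧
        cent K r B (p - 1) l0 < cent K r B (p - 1) l)}) ?_ φ h1 ?_ l0 rfl
  · intro Φ hΦ hP' q hq
    rw [Set.mem_singleton_iff] at hq
    subst hq
    by_contra hne
    obtain ⟨l, hl, hl'⟩ := hcon Φ hΦ hne
    exact hl' (hP' l hl)
  · intro l hl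
    refine h3 _ ?_
    rw [need_append, need_append]
    rcases hl with hl | ⟨e1, e2, hl⟩
    · left; omega
    · right
      refine ⟨by omega, ?_⟩
      rw [cent_append r B l0 _ _ (by omega), cent_append r B l _ _ (by omega), e1, e2]
      omega

lemma step0_aux {N : ℕ} (hL : LTst K N) {r : ℕ} {B : Option BT} (hr : 1 ≤ r) {I : Set BT} {hs : List BT}
    (hal : ∀ h ∈ hs, Alive K I h) {A A' : BT} (hA : big K r B A) (hN : A.lv + (hs.map BT.lv).sum ≤ N)
    (hI : ∀ S ∈ I, cb K r B A ≤ cb K r B S) (h : Hyp K I hs A A') : ¬ cb K r B A < cb K r B A' := by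
  intro hlt
  obtain ⟨l0, hl0, hn⟩ := exists_path (K := K) hr hA
  have hp : 1 ≤ cb K r B A := (cb_pos_iff hr A).2 hA
  have hlv := path_lv hl0
  have hcl := cb_le_lv (K := K) r B A
  obtain ⟨Φ, g1, g2, g3⟩ := test_core hL hr hal hp (by omega) hI l0 (by omega)
    (fun g hg => by have := cb_le_need (K := K) (r := r) (B := B) hg; omega)
  refine g2 (h Φ g1 (fun p' hp' => g3 p' (Or.inl ?_)) l0 hl0)
  have := need_path (K := K) hr (B := B) hp'
  omega

lemma step0 {N : ℕ} (hL : LTst K N) {I : Set BT} {hs : List BT} {A A' : BT} (hal : ∀ h ∈ hs, Alive K I h)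
    (hN : A.lv + (hs.map BT.lv).sum ≤ N) (hlv : A.lv = A'.lv) (hC : ∀ r B, 1 ≤ r → r < A.lv → ∀ S ∈ I, cb K r B A ≤ cb K r B S)
    (h : Hyp K I hs A A') (h' : Hyp K I hs A' A) {r : ℕ} {B : Option BT} (hr : 1 ≤ r)
    (hr' : r < A.lv) : cb K r B A = cb K r B A' := by
  have h1 := step0_aux hL hr hal (Or.inl hr' : big K r B A) hN (hC r B hr hr') h
  by_contra hne
  have h2 : cb K r B A' < cb K r B A := by omega
  exact step0_aux hL hr hal (Or.inl (hlv ▸ hr') : big K r B A') (hlv ▸ hN)
    (fun S hS => by have := hC r B hr hr' S hS; omega) h' h2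

lemma cb_eq_zero {r : ℕ} {B : Option BT} (hr : 1 ≤ r) {S : BT} (h : ¬ big K r B S) : cb K r B S = 0 := by
  by_contra hne
  exact h ((cb_pos_iff hr S).1 (by omega))

lemma step1 {N : ℕ} (hL : LTst K N) {r : ℕ} {B : Option BT} (hr : 1 ≤ r) {I : Set BT} {hs : List BT}
    (hal : ∀ h ∈ hs, Alive K I h) {a b a' b' : BT} (hN : (BT.node a b).lv + (hs.map BT.lv).sum ≤ N)
    (hI : ∀ S ∈ I, cb K r B (BT.node a b) ≤ cb K r B S)
    (ha : big K r B a) (hb : big K r B b) (ha' : big K r B a') (hb' : ¬ big K r B b')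
    (hlv : b'.lv = r) (heq : cb K r B (BT.node a b) = cb K r B (BT.node a' b'))
    (h : Hyp K I hs (BT.node a b) (BT.node a' b')) : False := by
  have e1 : cb K r B (BT.node a b) = cb K r B a + cb K r B b := cb_node hr a b (Or.inl ha)
  have e2 : cb K r B (BT.node a' b') = cb K r B a' + cb K r B b' := cb_node hr a' b' (Or.inl ha')
  have z : cb K r B b' = 0 := cb_eq_zero hr hb'
  have pa : 1 ≤ cb K r B a := (cb_pos_iff hr a).2 ha
  have pb : 1 ≤ cb K r B b := (cb_pos_iff hr b).2 hb
  obtain ⟨l1, hl1, hn⟩ := exists_path (K := K) hr ha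
  have nl0 : need K r B (l1 ++ [b]) = cb K r B (BT.node a b) - 1 := by
    rw [need_append, need_single]; omega
  have hlv1 := path_lv hl1
  have hcl := cb_le_lv (K := K) r B (BT.node a b)
  rw [BT.lv] at hN hcl
  obtain ⟨Φ, g1, g2, g3⟩ := test_core hL hr hal (p := cb K r B (BT.node a b)) (by omega) (by omega) hI
    (l1 ++ [b]) (by simp only [List.map_append, List.sum_append, List.map_cons, List.map_nil,
      List.sum_cons, List.sum_nil]; omega)
    (fun g hg => by
      rcases List.mem_append.1 hg with hg | hg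
      · have := cb_le_need (K := K) (r := r) (B := B) hg; omega
      · rw [List.mem_singleton] at hg; subst hg; omega)
  have c0 : cent K r B (cb K r B (BT.node a b) - 1) (l1 ++ [b]) = 0 := by
    rw [cent_append r B l1 [b] _ (by omega), cent_zero r B l1 _ (by omega)]
    have : cb K r B (BT.node a b) - 1 - need K r B l1 = cb K r B b := by omega
    rw [this, cent, if_neg (by omega), if_pos le_rfl, cent]
  refine g2 (h Φ g1 (fun p' hp' => g3 p' ?_) (l1 ++ [b])
    (mem_paths_node.2 (Or.inl ⟨l1, hl1, rfl⟩)))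
  rcases mem_paths_node.1 hp' with ⟨p1, hp1, rfl⟩ | ⟨p2, hp2, rfl⟩
  · have hn1 := need_path (K := K) hr (B := B) hp1
    rw [nl0, need_append, need_single, z]
    by_cases hgt : cb K r B (BT.node a b) - 1 < need K r B p1 + 0
    · exact Or.inl hgt
    · right
      refine ⟨rfl, by omega, ?_⟩
      rw [c0, cent_append r B p1 [b'] _ (by omega)]
      have : cb K r B (BT.node a b) - 1 - need K r B p1 = 0 := by omega
      rw [this, cent, if_pos ⟨rfl, hlv, z⟩]
      omega
  · left
    rw [nl0, need_append, need_single]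
    omega

end

end Pool.Agent.BC78.BZ
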