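import Pool.Agent.BC78.BZ.Z6a

/-! Row Z6, part 2: the equal halves step and the induction. -/

namespace Pool.Agent.BC78.BZ

open Pool.Agent.H25 Pool.Agent.BC78.BK

section
variable {K : Type*} [Field K]

/-- `V_X ⊆ V_Y` in every context -/
lemma mono_ctx {X Y : BT} (h : Sub K X Y) (hs : List BT) (φ : List ℕ → K)
    (hY : ∀ p ∈ paths Y, PK φ (p ++ hs)) : ∀ p ∈ paths X, PK φ (p ++ hs) := by
  intro p hp Rs hRs
  obtain ⟨R1, R2, rfl, h1, h2⟩ := List.map_eq_append_iff.1 hRs
  rw [pval_append, pval_pval]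
  have := hyp_of_sub h (fun q => pval R2 (fun p => φ (p ++ q)))
    (fun R hR => absurd hR (Set.notMem_empty _)) (by
      intro p' hp'
      rw [List.append_nil]
      intro R1' hR1'
      rw [pval_pval, ← pval_append]
      exact hY p' hp' _ (by rw [List.map_append, hR1', h2])) p hp
  rw [List.append_nil] at this
  exact this R1 h1

lemma pk_res {q : ℕ} {X : BT} (hX : X.lv = q) (φ : List ℕ → K) : PK (Z4.res q φ) [X] ↔ PK φ [X] := by
  rw [Z4.pk_one, Z4.pk_one]
  constructor
  · intro h R hR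
    have := h R hR
    rw [← hX, ← hR, Z4.val_res] at this
    exact this
  · intro h R hR
    have := h R hR
    rw [← Z4.val_res, hR, hX] at this
    exact this

lemma sub_of_al {q : ℕ} {X Y : BT} (hX : X.lv = q) (hY : Y.lv = q)
    (h : ∀ f : {f : List ℕ → K // ∀ w, w.length ≠ q → f w = 0}, ¬ PK f.1 [X] → ¬ PK f.1 [Y]) :
    Sub K X Y := by
  intro φ hφ
  by_contra hne
  refine h ⟨Z4.res q φ, Z4.res_supp q φ⟩ ?_ ?_
  · rw [pk_res hX]; exact hne
  · exact (pk_res hY φ).2 hφ

lemma gen_fun (K : Type*) [Field K] (q : ℕ) :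
    ∃ f : List ℕ → K, (∀ w, w.length ≠ q → f w = 0) ∧ ∀ X : BT, X.lv = q → ¬ PK f [X] := by
  refine ⟨fun w => if w = List.range' 0 q then 1 else 0, ?_, ?_⟩
  · intro w hw
    refine if_neg ?_
    rintro rfl
    exact hw List.length_range'
  · intro X hX
    obtain ⟨L, h1, h2⟩ := exists_labelled X 0
    rw [Z4.pk_one]
    intro h
    have := h L h1
    rw [← hX, ← h2, val_ind L (by rw [h2]; exact List.nodup_range')] at this
    exact one_ne_zero this

lemma path_alive {I : Set BT} {q : ℕ} (hI : ∀ S ∈ I, q ≤ S.lv) {X : BT} (hX : X.lv = q) {p : List BT}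
    (hp : p ∈ paths X) : ∀ g ∈ p, Alive K I g := by
  intro g hg
  have h1 := path_lv hp
  have h2 : g.lv ≤ (p.map BT.lv).sum :=
    List.single_le_sum (by simp) _ (List.mem_map.2 ⟨g, hg, rfl⟩)
  refine alive_of_lt (fun S hS => ?_)
  have := hI S hS
  omega

lemma exists_not_kill {I : Set BT} {q : ℕ} (hI : ∀ S ∈ I, q ≤ S.lv) {hs : List BT}
    (hal : ∀ h ∈ hs, Alive K I h) {X : BT} (hX : X.lv = q) :
    ∃ χ : List ℕ → K, IK χ I ∧ ¬ ∀ p ∈ paths X, PK χ (p ++ hs) := by
  obtain ⟨p, hp⟩ := exists_mem_paths X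
  obtain ⟨F, h1, -, Ss, h2, h3⟩ := Z4.alive_prod (K := K) (I := I) (p ++ hs).reverse (by
    intro g hg
    rw [List.mem_reverse, List.mem_append] at hg
    rcases hg with hg | hg
    · exact path_alive hI hX hp g hg
    · exact hal g hg)
  refine ⟨F, h1, fun h => h3 ?_⟩
  have := h p hp
  rw [Z4.pk_iff] at this
  exact this Ss h2

/-- the statement of the induction -/
def Ind (K : Type*) [Field K] (N n : ℕ) : Prop :=
  ∀ (A A' : BT) (I : Set BT) (hs : List BT),
    A.lv ≤ n → A.lv = A'.lv → A.lv + (hs.map BT.lv).sum ≤ N → (∀ S ∈ I, A.lv ≤ S.lv) →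
    (∀ h ∈ hs, Alive K I h) →
    (∀ r B, 1 ≤ r → r < A.lv → ∀ S ∈ I, cb K r B A ≤ cb K r B S) →
    Hyp K I hs A A' → Hyp K I hs A' A → BT.Iso A A'

lemma Ind.plain {N n : ℕ} (ih : Ind K N n) {X Y : BT} (hX : X.lv ≤ n) (hN : X.lv ≤ N)
    (h : Sub K X Y) (h' : Sub K Y X) : BT.Iso X Y := by
  refine ih X Y ∅ [] hX (sub_lv h) (by simpa using hN) ?_ ?_ ?_ (hyp_of_sub h) (hyp_of_sub h')
  · intro S hS; exact absurd hS (Set.notMem_empty _)
  · intro S hS; simp at hS
  · intro r B _ _ S hS; exact absurd hS (Set.notMem_empty _)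

lemma step3 {N n : ℕ} (hL : LTst K N) (ih : Ind K N n) {a b a' b' : BT} {q : ℕ} {I : Set BT}
    {hs : List BT} (ha : a.lv = q) (hb : b.lv = q) (ha' : a'.lv = q) (hb' : b'.lv = q) (hqn : q ≤ n)
    (hN : (BT.node a b).lv + (hs.map BT.lv).sum ≤ N) (hI : ∀ S ∈ I, (BT.node a b).lv ≤ S.lv)
    (hal : ∀ h ∈ hs, Alive K I h)
    (hC : ∀ r B, 1 ≤ r → r < (BT.node a b).lv → ∀ S ∈ I, cb K r B (BT.node a b) ≤ cb K r B S)
    (h : Hyp K I hs (BT.node a b) (BT.node a' b')) (h' : Hyp K I hs (BT.node a' b') (BT.node a b)) :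
    (BT.Iso a a' ∧ BT.Iso b b') ∨ (BT.Iso a b' ∧ BT.Iso b a') := by
  classical
  have hq : 1 ≤ q := by rw [← ha]; exact a.lv_pos
  have h2q : (BT.node a b).lv = q + q := by rw [BT.lv, ha, hb]
  have h2q' : (BT.node a' b').lv = q + q := by rw [BT.lv, ha', hb']
  set M : BT → Prop := fun X => X = a ∨ X = b ∨ X = a' ∨ X = b' with hM
  have hMlv : ∀ X, M X → X.lv = q := by
    rintro X (rfl | rfl | rfl | rfl) <;> assumption
  set J : Set BT := I ∪ {X | M X} with hJ
  have hIJ : I ⊆ J := Set.subset_union_left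
  have hIq : ∀ S ∈ I, q < S.lv := fun S hS => by have := hI S hS; omega
  have hJq : ∀ S ∈ J, q ≤ S.lv := by
    rintro S (hS | hS)
    · exact (hIq S hS).le
    · exact (hMlv S hS).ge
  set hs1 : List BT := hs.filter (fun x => decide (Alive K J x)) with hhs1
  have hal1 : ∀ h ∈ hs1, Alive K J h := fun x hx => by simpa using (List.mem_filter.1 hx).2
  have hsz : (hs1.map BT.lv).sum ≤ (hs.map BT.lv).sum := filter_sum_le _ hs
  have mJ : ∀ X, M X → X ∈ J := fun X hX => Or.inr hX
  have Ma : M a := Or.inl rfl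
  have Mb : M b := Or.inr (Or.inl rfl)
  have Ma' : M a' := Or.inr (Or.inr (Or.inl rfl))
  have Mb' : M b' := Or.inr (Or.inr (Or.inr rfl))
  have hcab : ∀ r B, 1 ≤ r → r < q → cb K r B (BT.node a b) = cb K r B a + cb K r B b :=
    fun r B h1 h2 => cb_node h1 a b (Or.inl (Or.inl (by omega)))
  have hcab' : ∀ r B, 1 ≤ r → r < q → cb K r B (BT.node a' b') = cb K r B a' + cb K r B b' :=
    fun r B h1 h2 => cb_node h1 a' b' (Or.inl (Or.inl (by omega)))
  have ctx : TieLogic65.Ctx (T := BT) (F := {f : List ℕ → K // ∀ w, w.length ≠ q → f w = 0})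
      (C := {χ : List ℕ → K // IK χ J}) (Λ := {ρ : ℕ × Option BT // 1 ≤ ρ.1 ∧ ρ.1 < q}) M
      (fun X f => ¬ PK f.1 [X]) (fun X χ => ∀ p ∈ paths X, PK χ.1 (p ++ hs1))
      (fun ρ X => cb K ρ.1.1 ρ.1.2 X) BT.Iso := by
    refine ⟨?_, ?_, ?_, ?_, ?_, ?_, ?_⟩
    · intro X Y hX hY hXY χ hχ
      exact mono_ctx (sub_of_al (hMlv X hX) (hMlv Y hY) hXY) hs1 χ.1 hχ
    · intro X hX
      obtain ⟨χ, h1, h2⟩ := exists_not_kill (K := K) hJq hal1 (hMlv X hX)
      exact ⟨⟨χ, h1⟩, h2⟩
    · intro X Y hX hY hXY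
      have lX := hMlv X hX
      have lY := hMlv Y hY
      exact ih.plain (by omega) (by omega) (sub_of_al lX lY (fun f => (hXY f).1))
        (sub_of_al lY lX (fun f => (hXY f).2))
    · intro X Y hX hY hXY f
      exact ⟨fun h1 h2 => h1 (sub_of_iso hXY f.1 h2), fun h1 h2 => h1 (sub_of_iso hXY.symm f.1 h2)⟩
    · intro X Y hX hY hXY ρ
      exact cb_iso hXY
    · rintro ⟨⟨r, B⟩, hr, hr'⟩ X hX hmin
      simp only at hr hr'
      have lX := hMlv X hX
      have hbX : big K r B X := Or.inl (by omega)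
      obtain ⟨l0, hl0, hn⟩ := exists_path (K := K) hr hbX
      have hlv := path_lv hl0
      have hcl := cb_le_lv (K := K) r B X
      have hpos := (cb_pos_iff (K := K) hr (B := B) X).2 hbX
      obtain ⟨Φ, g1, g2, g3⟩ := test_core hL (r := r) (B := B) hr (I := J) hal1
        (p := cb K r B X) hpos (by omega) (by
          rintro S (hS | hS)
          · have e1 := hC r B hr (by omega) S hS
            have e2 := hcab r B hr hr'
            have e3 := hmin a Ma
            simp only at e3
            omega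
          · exact hmin S hS) l0 (by omega)
        (fun g hg => by have := cb_le_need (K := K) (r := r) (B := B) hg; omega)
      refine ⟨⟨Φ, g1⟩, fun hh => g2 (hh l0 hl0), fun Y hY hlt p' hp' => g3 p' (Or.inl ?_)⟩
      have := need_path (K := K) hr (B := B) hp'
      simp only at hlt
      omega
    · intro X Y hX hY hmin heq hK
      have lX := hMlv X hX
      have lY := hMlv Y hY
      refine ih X Y J hs1 (by omega) (by omega) (by omega) (by rw [lX]; exact hJq) hal1 ?_
        (fun φ hφ hh => (hK ⟨φ, hφ⟩).2 hh) (fun φ hφ hh => (hK ⟨φ, hφ⟩).1 hh)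
      rintro r B hr hr' S (hS | hS)
      · have e1 := hC r B hr (by omega) S hS
        have e2 := hcab r B hr (by omega)
        have e3 := hmin ⟨(r, B), hr, by simp only; omega⟩ a Ma
        simp only at e3
        omega
      · exact hmin ⟨(r, B), hr, by simp only; omega⟩ S hS
  refine TieLogic65.tie ctx Ma Mb Ma' Mb' (fun X hX => hX) ?_ ?_ ?_
  · intro f χ
    constructor
    · rintro ⟨k1, k2⟩
      have := pen3 (K := K) hIJ hIq hJq hal ha' hb' ha hb (mJ _ Ma') (mJ _ Mb') (mJ _ Ma) (mJ _ Mb)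
        h' f.1 χ.1 f.2 χ.2 (or_iff_not_imp_left.2 k1) (or_iff_not_imp_left.2 k2)
      exact ⟨or_iff_not_imp_left.1 this.1, or_iff_not_imp_left.1 this.2⟩
    · rintro ⟨k1, k2⟩
      have := pen3 (K := K) hIJ hIq hJq hal ha hb ha' hb' (mJ _ Ma) (mJ _ Mb) (mJ _ Ma') (mJ _ Mb')
        h f.1 χ.1 f.2 χ.2 (or_iff_not_imp_left.2 k1) (or_iff_not_imp_left.2 k2)
      exact ⟨or_iff_not_imp_left.1 this.1, or_iff_not_imp_left.1 this.2⟩
  · obtain ⟨f, hf, hf'⟩ := gen_fun K q
    exact ⟨⟨f, hf⟩, hf' a ha, hf' b hb, hf' a' ha', hf' b' hb'⟩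
  · rintro ⟨⟨r, B⟩, hr, hr'⟩
    simp only at hr hr' ⊢
    rw [← hcab r B hr hr', ← hcab' r B hr hr']
    exact step0 hL hal hN (by omega) hC h h' hr (by omega)

lemma main_node {N n : ℕ} (hL : LTst K N) (ih : Ind K N n) {a b a' b' : BT} {I : Set BT}
    {hs : List BT} (hab : b.lv ≤ a.lv) (hab' : b'.lv ≤ a'.lv) (hn : (BT.node a b).lv ≤ n + 1)
    (hlv : (BT.node a b).lv = (BT.node a' b').lv)
    (hN : (BT.node a b).lv + (hs.map BT.lv).sum ≤ N) (hI : ∀ S ∈ I, (BT.node a b).lv ≤ S.lv)
    (hal : ∀ h ∈ hs, Alive K I h)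
    (hC : ∀ r B, 1 ≤ r → r < (BT.node a b).lv → ∀ S ∈ I, cb K r B (BT.node a b) ≤ cb K r B S)
    (h : Hyp K I hs (BT.node a b) (BT.node a' b')) (h' : Hyp K I hs (BT.node a' b') (BT.node a b)) :
    BT.Iso (BT.node a b) (BT.node a' b') := by
  classical
  have e0 : ∀ r B, 1 ≤ r → r < (BT.node a b).lv →
      cb K r B (BT.node a b) = cb K r B (BT.node a' b') :=
    fun r B h1 h2 => step0 hL hal hN hlv hC h h' h1 h2
  have hC' : ∀ r B, 1 ≤ r → r < (BT.node a' b').lv → ∀ S ∈ I,
      cb K r B (BT.node a' b') ≤ cb K r B S := by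
    intro r B h1 h2 S hS
    rw [← e0 r B h1 (by omega)]
    exact hC r B h1 (by omega) S hS
  have hN' : (BT.node a' b').lv + (hs.map BT.lv).sum ≤ N := by omega
  have pa := a.lv_pos
  have pb := b.lv_pos
  have pa' := a'.lv_pos
  have pb' := b'.lv_pos
  have l1 : (BT.node a b).lv = a.lv + b.lv := rfl
  have l2 : (BT.node a' b').lv = a'.lv + b'.lv := rfl
  have nb : ∀ {r : ℕ} {X : BT}, X.lv = r → ¬ big K r none X := by
    rintro r X hX (h1 | ⟨h1, c, hc, h2⟩)
    · omega
    · simp at hc
  have hbb : b.lv = b'.lv := by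
    by_contra hne
    rcases lt_or_gt_of_ne hne with hlt | hgt
    · exact step1 hL (r := b.lv) (B := none) pb hal (a := a') (b := b') (a' := a) (b' := b) hN'
        (hC' _ _ pb (by omega)) (Or.inl (by omega)) (Or.inl (by omega)) (Or.inl (by omega))
        (nb rfl) rfl (e0 _ _ pb (by omega)).symm h'
    · exact step1 hL (r := b'.lv) (B := none) pb' hal (a := a) (b := b) (a' := a') (b' := b') hN
        (hC _ _ pb' (by omega)) (Or.inl (by omega)) (Or.inl (by omega)) (Or.inl (by omega))
        (nb rfl) rfl (e0 _ _ pb' (by omega)) h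
  have haa : a.lv = a'.lv := by omega
  rcases eq_or_lt_of_le hab with heq | hlt
  · rcases step3 hL ih (q := b.lv) heq.symm rfl (by omega) hbb.symm (by omega) hN hI hal hC h h' with
      ⟨h1, h2⟩ | ⟨h1, h2⟩
    · exact BT.Iso.node h1 h2
    · exact BT.Iso.swap h1 h2
  · have s1 : Sub K b' b := by
      by_contra hns
      refine step1 hL (r := b.lv) (B := some b) pb hal (a := a) (b := b) (a' := a') (b' := b') hN
        (hC _ _ pb (by omega)) (Or.inl (by omega)) (Or.inr ⟨rfl, b, rfl, sub_refl b⟩)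
        (Or.inl (by omega)) ?_ hbb.symm (e0 _ _ pb (by omega)) h
      rintro (h1 | ⟨h1, c, hc, h2⟩)
      · omega
      · rw [Option.mem_some_iff] at hc
        subst hc
        exact hns h2
    have s2 : Sub K b b' := by
      by_contra hns
      refine step1 hL (r := b'.lv) (B := some b') pb' hal (a := a') (b := b') (a' := a) (b' := b) hN'
        (hC' _ _ pb' (by omega)) (Or.inl (by omega)) (Or.inr ⟨rfl, b', rfl, sub_refl b'⟩)
        (Or.inl (by omega)) ?_ hbb (e0 _ _ pb' (by omega)).symm h'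
      rintro (h1 | ⟨h1, c, hc, h2⟩)
      · omega
      · rw [Option.mem_some_iff] at hc
        subst hc
        exact hns h2
    have ib : BT.Iso b b' := ih.plain (by omega) (by omega) s2 s1
    set J : Set BT := I ∪ {a, a'} with hJ
    have hIJ : I ⊆ J := Set.subset_union_left
    have aJ : a ∈ J := Or.inr (Or.inl rfl)
    have aJ' : a' ∈ J := Or.inr (Or.inr rfl)
    have hJa : ∀ S ∈ J, a.lv ≤ S.lv := by
      rintro S (hS | rfl | hS)
      · have := hI S hS; omega
      · exact le_rfl
      · rw [Set.mem_singleton_iff] at hS; subst hS; exact haa.le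
    set hs1 : List BT := hs.filter (fun x => decide (Alive K J x)) with hhs1
    have hal1 : ∀ h ∈ hs1, Alive K J h := fun x hx => by simpa using (List.mem_filter.1 hx).2
    have hsz : (hs1.map BT.lv).sum ≤ (hs.map BT.lv).sum := filter_sum_le _ hs
    have P : Hyp K J hs1 (BT.node a b) (BT.node a' b') := pen2 hIJ hal h
    have P' : Hyp K J hs1 (BT.node a' b') (BT.node a b) := pen2 hIJ hal h'
    have ia : BT.Iso a a' := by
      refine ih a a' J (b :: hs1) (by omega) haa (by rw [List.map_cons, List.sum_cons]; omega) hJa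
        ?_ ?_ ?_ ?_
      · intro x hx
        rcases List.mem_cons.1 hx with rfl | hx
        · exact alive_of_lt (fun S hS => by have := hJa S hS; omega)
        · exact hal1 x hx
      · intro r B hr hr' S hS
        have c1 : cb K r B (BT.node a b) = cb K r B a + cb K r B b :=
          cb_node hr a b (Or.inl (Or.inl hr'))
        have c2 : cb K r B (BT.node a' b') = cb K r B a' + cb K r B b' :=
          cb_node hr a' b' (Or.inl (Or.inl (by omega)))
        have c3 := e0 r B hr (by omega)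
        have c4 : cb K r B b = cb K r B b' := cb_iso ib
        rcases hS with hS | rfl | hS
        · have := hC r B hr (by omega) S hS
          omega
        · exact le_rfl
        · rw [Set.mem_singleton_iff] at hS
          subst hS
          omega
      · intro φ hφ hA' p hp
        have := P φ hφ (by
          intro p' hp'
          rcases mem_paths_node.1 hp' with ⟨p1, hp1, rfl⟩ | ⟨p2, hp2, rfl⟩
          · rw [List.append_assoc]
            exact pk_sub s1 φ p1 hs1 (hA' p1 hp1)
          · exact pk_dead (dead_of_mem aJ') φ hφ _ (by simp)) (p ++ [b])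
          (mem_paths_node.2 (Or.inl ⟨p, hp, rfl⟩))
        rw [List.append_assoc] at this
        exact this
      · intro φ hφ hA' p hp
        have := P' φ hφ (by
          intro p' hp'
          rcases mem_paths_node.1 hp' with ⟨p1, hp1, rfl⟩ | ⟨p2, hp2, rfl⟩
          · rw [List.append_assoc]
            exact hA' p1 hp1
          · exact pk_dead (dead_of_mem aJ) φ hφ _ (by simp)) (p ++ [b'])
          (mem_paths_node.2 (Or.inl ⟨p, hp, rfl⟩))
        rw [List.append_assoc] at this
        exact pk_sub s2 φ p hs1 this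
    exact BT.Iso.node ia ib

theorem ind_all {N : ℕ} (hL : LTst K N) : ∀ n : ℕ, Ind K N n := by
  intro n
  induction n with
  | zero =>
    intro A A' I hs hn
    have := A.lv_pos
    omega
  | succ n ih =>
    intro A A' I hs hn hlv hN hI hal hC h h'
    cases A with
    | leaf =>
      cases A' with
      | leaf => exact BT.Iso.leaf
      | node a' b' =>
        have h1 := a'.lv_pos
        have h2 := b'.lv_pos
        rw [BT.lv, BT.lv] at hlv
        omega
    | node a b =>
      cases A' with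
      | leaf =>
        have h1 := a.lv_pos
        have h2 := b.lv_pos
        rw [BT.lv, BT.lv] at hlv
        omega
      | node a' b' =>
        have sw : ∀ {x y : BT}, (BT.node x y).lv = (BT.node y x).lv := fun {x y} => by
          rw [BT.lv, BT.lv, add_comm]
        have right : ∀ {a b : BT}, b.lv ≤ a.lv → (BT.node a b).lv ≤ n + 1 →
            (BT.node a b).lv = (BT.node a' b').lv →
            (BT.node a b).lv + (hs.map BT.lv).sum ≤ N → (∀ S ∈ I, (BT.node a b).lv ≤ S.lv) →
            (∀ r B, 1 ≤ r → r < (BT.node a b).lv → ∀ S ∈ I,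
              cb K r B (BT.node a b) ≤ cb K r B S) →
            Hyp K I hs (BT.node a b) (BT.node a' b') → Hyp K I hs (BT.node a' b') (BT.node a b) →
            BT.Iso (BT.node a b) (BT.node a' b') := by
          intro a b hab g1 g2 g3 g4 g5 g6 g7
          rcases le_total b'.lv a'.lv with h2 | h2
          · exact main_node hL ih hab h2 g1 g2 g3 g4 hal g5 g6 g7
          · have := main_node hL ih hab h2 g1 (g2.trans sw) g3 g4 hal g5 g6.swapr g7.swapl
            exact (iso_swap_left this.symm).symm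
        rcases le_total b.lv a.lv with h1 | h1
        · exact right h1 hn hlv hN hI hC h h'
        · refine iso_swap_left (right h1 (by rw [sw]; exact hn) (sw.trans hlv) (by rw [sw]; exact hN)
            (by rw [sw]; exact hI) ?_ h.swapl h'.swapr)
          intro r B hr hr' S hS
          rw [cb_iso (iso_swap b a)]
          exact hC r B hr (by rw [sw]; exact hr') S hS

/-- the theorem of helper89 from the level test -/
theorem iso_of_X0_of_LTst {N : ℕ} (hL : LTst K N) {s t : BT} (hs : s.lv ≤ N) (h : X0 K s = X0 K t) :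
    BT.Iso s t :=
  (ind_all hL s.lv).plain le_rfl hs (sub_of_X0 h.le) (sub_of_X0 h.ge)

end

end Pool.Agent.BC78.BZ
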