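import Pool.Agent.BC78.BZ.Z6b
import Pool.Agent.BC78.BH31.LevelTest

/-! The level test and the main theorem in characteristic zero or large characteristic. -/

namespace Pool.Agent.BC78.BZ

open Pool.Agent.H25 Pool.Agent.BC78.BK

section
variable {K : Type*} [Field K]

lemma need_le_sum (r : ℕ) (B : Option BT) : ∀ l : List BT, need K r B l ≤ (l.map BT.lv).sum
  | [] => by simp [need]
  | x :: l => by
    have h1 := need_le_sum r B l
    have h2 := cb_le_lv (K := K) r B x
    rw [need] at h1 ⊢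
    rw [List.map_cons, List.sum_cons, List.map_cons, List.sum_cons]
    omega

theorem ltst {N : ℕ} (hK : ∀ m : ℕ, 1 ≤ m → m ≤ N → ((m : ℕ) : K) ≠ 0) : LTst K N := by
  intro r B p gs hr hp hpN hgs hcb
  refine level_test K r hr B p hp gs hcb (fun m h1 h2 => hK m h1 ?_)
  have := need_le_sum (K := K) r B gs
  omega

/-- MAIN THEOREM -/
theorem iso_of_X0 {s t : BT} (hK : ∀ m : ℕ, 1 ≤ m → m ≤ s.lv → ((m : ℕ) : K) ≠ 0)
    (h : X0 K s = X0 K t) : BT.Iso s t :=
  iso_of_X0_of_LTst (ltst hK) le_rfl h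

end

end Pool.Agent.BC78.BZ
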